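import Mathlib

/-! # Weak hyperbolic dimension of the Grigorchuk group and of Thompson's group F: statements -/

namespace H812R5

/-- `Y` is `(N, R)`-large scale doubling in the metric space `(X, d)`. -/
def Doubling {X : Type} (d : X → X → ℝ) (N : ℕ) (R : ℝ) (Y : Set X) : Prop :=
  ∀ (x : X) (r : ℝ), R ≤ r → ∃ c : Fin N → X, ∀ y ∈ Y, d x y ≤ 2 * r → ∃ i, d (c i) y ≤ r

/-- The weak hyperbolic dimension of `(X, d)` is at most `n`. -/
def WHyperdimLE {X : Type} (d : X → X → ℝ) (n : ℕ) : Prop :=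
  ∀ r : ℝ, 0 < r → ∃ (N : ℕ) (R : ℝ), 1 ≤ N ∧ 0 < R ∧ ∃ P : Fin (n + 1) → Set (Set X),
    (∀ i, ∀ Y ∈ P i, Doubling d N R Y) ∧
    (∀ i, ∀ Y ∈ P i, ∀ Y' ∈ P i, Y ≠ Y' → ∀ y ∈ Y, ∀ y' ∈ Y', r ≤ d y y') ∧
    ∀ x, ∃ i, ∃ Y ∈ P i, x ∈ Y

/-- Word length with respect to `S`. -/
noncomputable def wlen {G : Type} [Group G] (S : Set G) (g : G) : ℕ :=
  sInf {k : ℕ | ∃ l : List G, l.length = k ∧ (∀ x ∈ l, x ∈ S ∨ x⁻¹ ∈ S) ∧ l.prod = g}

/-- The word metric of the group generated by `S`. -/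
noncomputable def wd {G : Type} [Group G] (S : Set G) (x y : Subgroup.closure S) : ℝ :=
  (wlen S ((x : G)⁻¹ * (y : G)) : ℝ)

/-- The elements which are products of exactly `L` elements of `U`. -/
def Words {G : Type} [Group G] (U : Finset G) (L : ℕ) : Set G :=
  {g | ∃ l : List G, l.length = L ∧ (∀ x ∈ l, x ∈ U) ∧ l.prod = g}

/-- For every `n` the subgroup `H` contains `n` commuting finite sets of superpolynomial growth. -/
def SuperPoly {G : Type} [Group G] (H : Subgroup G) : Prop :=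
  ∀ n : ℕ, ∃ U : Fin n → Finset G, (∀ i, ∀ g ∈ U i, g ∈ H) ∧
    (∀ i j, i ≠ j → ∀ g ∈ U i, ∀ h ∈ U j, g * h = h * g) ∧
    ∀ D K : ℕ, ∃ L : ℕ, 1 ≤ L ∧ ∀ i, K * L ^ D ≤ (Words (U i) L).ncard

/-- One step of an `l^∞`-path in the grid `{0, ..., L}^n` between points of colour `i`. -/
def GStep {n : ℕ} (L : ℕ) (c : (Fin n → ℤ) → Fin n) (i : Fin n) (p q : Fin n → ℤ) : Prop :=
  (∀ j, 0 ≤ q j ∧ q j ≤ L) ∧ (∀ j, |q j - p j| ≤ 1) ∧ c p = i ∧ c q = i

/-- TASK HEX: the `n`-dimensional Hex lemma. -/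
def TaskHex : Prop :=
  ∀ (n L : ℕ), 0 < n → 0 < L → ∀ c : (Fin n → ℤ) → Fin n,
    ∃ (i : Fin n) (s s' : Fin n → ℤ), (∀ j, 0 ≤ s j ∧ s j ≤ L) ∧ (∀ j, 0 ≤ s' j ∧ s' j ≤ L) ∧
      s i = 0 ∧ s' i = L ∧ c s = i ∧ c s' = i ∧ Relation.ReflTransGen (GStep L c i) s s'

/-- TASK PIG: a pigeonhole principle. -/
def TaskPig : Prop :=
  ∀ (m : ℕ) (_ : 0 < m) (W : Fin m → Type) [∀ i, Fintype (W i)] [∀ i, Nonempty (W i)]
    (col : (∀ i, W i) → Fin m),
    ∃ (i : Fin m) (g : ∀ j, W j), Fintype.card (W i) ≤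
      m * {x : W i | col (Function.update g i x) = i}.ncard

/-- TASK MAIN: superpolynomial commuting growth implies infinite weak hyperbolic dimension. -/
def TaskMain : Prop :=
  ∀ (G : Type) [Group G] (S : Set G), S.Finite → SuperPoly (Subgroup.closure S) →
    ∀ n, ¬ WHyperdimLE (wd S) n

/-- Infinite binary sequences. -/
abbrev Seq : Type := ℕ → Bool

/-- Adding a first letter. -/
def cons (x : Bool) (w : Seq) : Seq := fun n => Nat.casesOn n x w

/-- The generators of the Grigorchuk group. -/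
def IsGrig (a b c d : Equiv.Perm Seq) : Prop :=
  (∀ w, a (cons false w) = cons true w) ∧ (∀ w, a (cons true w) = cons false w) ∧
  (∀ w, b (cons false w) = cons false (a w)) ∧ (∀ w, b (cons true w) = cons true (c w)) ∧
  (∀ w, c (cons false w) = cons false (a w)) ∧ (∀ w, c (cons true w) = cons true (d w)) ∧
  (∀ w, d (cons false w) = cons false w) ∧ (∀ w, d (cons true w) = cons true (b w))

/-- TASK GE: the generators exist. -/
def TaskGE : Prop := ∃ a b c d : Equiv.Perm Seq, IsGrig a b c d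

/-- TASK G: the Grigorchuk group. -/
def TaskG : Prop := ∀ a b c d : Equiv.Perm Seq, IsGrig a b c d →
  SuperPoly (Subgroup.closure {a, b, c, d})

/-- The commutator `x y x⁻¹ y⁻¹`. -/
def comm {G : Type} [Group G] (x y : G) : G := x * y * x⁻¹ * y⁻¹

/-- The relators of Thompson's group `F` on the generators `A = of 0`, `B = of 1`:
`[A B⁻¹, A⁻¹ B A]` and `[A B⁻¹, A⁻² B A²]`. -/
def FRels : Set (FreeGroup (Fin 2)) :=
  let A : FreeGroup (Fin 2) := FreeGroup.of 0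
  let B : FreeGroup (Fin 2) := FreeGroup.of 1
  {comm (A * B⁻¹) (A⁻¹ * B * A), comm (A * B⁻¹) (A⁻¹ * A⁻¹ * B * A * A)}

/-- Thompson's group `F`. -/
abbrev TF : Type := PresentedGroup FRels

/-- TASK F: Thompson's group. -/
def TaskF : Prop := SuperPoly (⊤ : Subgroup TF)

/-- The final statement. -/
def Final : Prop :=
  (∃ a b c d : Equiv.Perm Seq, IsGrig a b c d) ∧
  (∀ a b c d : Equiv.Perm Seq, IsGrig a b c d → ∀ S : Set (Equiv.Perm Seq), S.Finite →
    Subgroup.closure S = Subgroup.closure {a, b, c, d} → ∀ n, ¬ WHyperdimLE (wd S) n) ∧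
  (∀ S : Set TF, S.Finite → Subgroup.closure S = ⊤ → ∀ n, ¬ WHyperdimLE (wd S) n)

theorem final (h1 : TaskMain) (h2 : TaskGE) (h3 : TaskG) (h4 : TaskF) : Final := by
  refine ⟨h2, ?_, ?_⟩
  · intro a b c d hg S hS hcl n
    exact h1 _ S hS (by rw [hcl]; exact h3 a b c d hg) n
  · intro S hS hcl n
    exact h1 _ S hS (by rw [hcl]; exact h4) n

end H812R5
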