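import Mathlib
import Pool.Agent.H812R5.Stmts

set_option autoImplicit false

/-! Thompson's group `F` contains many commuting free semigroups. -/

namespace H812R5.F

noncomputable section

/-! ### The relations -/

def A : TF := PresentedGroup.of 0
def B : TF := PresentedGroup.of 1

theorem rel1 : comm (A * B⁻¹) (A⁻¹ * B * A) = 1 := by
  have h : PresentedGroup.mk FRels (comm (FreeGroup.of 0 * (FreeGroup.of 1)⁻¹)
      ((FreeGroup.of 0)⁻¹ * FreeGroup.of 1 * FreeGroup.of 0)) = 1 :=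
    PresentedGroup.one_of_mem (by left; rfl)
  simpa [comm, A, B, PresentedGroup.of] using h

theorem rel2 : comm (A * B⁻¹) (A⁻¹ * A⁻¹ * B * A * A) = 1 := by
  have h : PresentedGroup.mk FRels (comm (FreeGroup.of 0 * (FreeGroup.of 1)⁻¹)
      ((FreeGroup.of 0)⁻¹ * (FreeGroup.of 0)⁻¹ * FreeGroup.of 1 * FreeGroup.of 0 *
        FreeGroup.of 0)) = 1 :=
    PresentedGroup.one_of_mem (by right; rfl)
  simpa [comm, A, B, PresentedGroup.of] using h

def Y (n : ℕ) : TF := (A ^ n)⁻¹ * B * A ^ n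

theorem conjA (m n : ℕ) : (A ^ m)⁻¹ * Y n * A ^ m = Y (n + m) := by
  unfold Y
  rw [pow_add]
  group

theorem comm_eq {G : Type} [Group G] {x y : G} (h : comm x y = 1) : x * y = y * x := by
  unfold comm at h
  have := mul_inv_eq_one.1 h
  exact mul_inv_eq_iff_eq_mul.1 this

theorem base1 : (Y 0)⁻¹ * Y 1 * Y 0 = Y 2 := by
  have h := comm_eq rel1
  have e1 : Y 1 = A⁻¹ * B * A := by simp [Y]
  have e0 : Y 0 = B := by simp [Y]
  have e2 : Y 2 = A⁻¹ * Y 1 * A := by
    have := conjA 1 1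
    rw [pow_one] at this
    exact this.symm
  rw [← e1] at h
  rw [e2, e0]
  have h2 : B⁻¹ * Y 1 = A⁻¹ * (A * B⁻¹ * Y 1) := by group
  rw [h2, h]
  group

theorem base2 : (Y 0)⁻¹ * Y 2 * Y 0 = Y 3 := by
  have h := comm_eq rel2
  have e2' : Y 2 = A⁻¹ * A⁻¹ * B * A * A := by
    unfold Y
    rw [pow_two]
    group
  have e0 : Y 0 = B := by simp [Y]
  have e3 : Y 3 = A⁻¹ * Y 2 * A := by
    have := conjA 1 2
    rw [pow_one] at this
    exact this.symm
  rw [← e2'] at h
  rw [e3, e0]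
  have h2 : B⁻¹ * Y 2 = A⁻¹ * (A * B⁻¹ * Y 2) := by group
  rw [h2, h]
  group

theorem step1 (j : ℕ) : (Y j)⁻¹ * Y (j + 1) * Y j = Y (j + 2) := by
  have h : (A ^ j)⁻¹ * ((Y 0)⁻¹ * Y 1 * Y 0) * A ^ j = (A ^ j)⁻¹ * Y 2 * A ^ j :=
    congrArg (fun g => (A ^ j)⁻¹ * g * A ^ j) base1
  have e : (A ^ j)⁻¹ * ((Y 0)⁻¹ * Y 1 * Y 0) * A ^ j =
      ((A ^ j)⁻¹ * Y 0 * A ^ j)⁻¹ * ((A ^ j)⁻¹ * Y 1 * A ^ j) * ((A ^ j)⁻¹ * Y 0 * A ^ j) := by
    group
  rw [e, conjA, conjA, conjA, zero_add, add_comm 1 j, add_comm 2 j] at h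
  exact h

theorem step2 (j : ℕ) : (Y j)⁻¹ * Y (j + 2) * Y j = Y (j + 3) := by
  have h : (A ^ j)⁻¹ * ((Y 0)⁻¹ * Y 2 * Y 0) * A ^ j = (A ^ j)⁻¹ * Y 3 * A ^ j :=
    congrArg (fun g => (A ^ j)⁻¹ * g * A ^ j) base2
  have e : (A ^ j)⁻¹ * ((Y 0)⁻¹ * Y 2 * Y 0) * A ^ j =
      ((A ^ j)⁻¹ * Y 0 * A ^ j)⁻¹ * ((A ^ j)⁻¹ * Y 2 * A ^ j) * ((A ^ j)⁻¹ * Y 0 * A ^ j) := by
    group
  rw [e, conjA, conjA, conjA, zero_add, add_comm 2 j, add_comm 3 j] at h
  exact h

theorem step (d : ℕ) : ∀ j, (Y j)⁻¹ * Y (j + d + 1) * Y j = Y (j + d + 2) := by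
  induction d using Nat.strong_induction_on with
  | _ d ih =>
    intro j
    match d, ih with
    | 0, _ => exact step1 j
    | 1, _ => exact step2 j
    | e + 2, ih =>
      have h1 := ih e (by omega) j
      have h2 := ih (e + 1) (by omega) j
      have h3 : Y (j + (e + 2) + 1) = (Y (j + e + 1))⁻¹ * Y (j + e + 2) * Y (j + e + 1) :=
        (step1 (j + e + 1)).symm
      have h4 : Y (j + (e + 2) + 2) = (Y (j + e + 2))⁻¹ * Y (j + e + 3) * Y (j + e + 2) :=
        (step1 (j + e + 2)).symm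
      have h2' : (Y j)⁻¹ * Y (j + e + 2) * Y j = Y (j + e + 3) := h2
      rw [h3, h4, ← h1, ← h2', ← h1]
      group

theorem rel {j k : ℕ} (h : j < k) : Y k * Y j = Y j * Y (k + 1) := by
  obtain ⟨d, rfl⟩ : ∃ d, k = j + d + 1 := ⟨k - j - 1, by omega⟩
  have := step d j
  rw [show j + d + 1 + 1 = j + d + 2 from rfl, ← this]
  group

def p (m : ℕ) : TF := Y (m + 1) * (Y (m + 2))⁻¹
def q (m : ℕ) : TF := Y (m + 1) * (Y m)⁻¹

theorem inv_rel {j k : ℕ} (h : j < k) : (Y j)⁻¹ * Y k = Y (k + 1) * (Y j)⁻¹ := by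
  rw [inv_mul_eq_iff_eq_mul, ← mul_assoc, ← rel h, mul_inv_cancel_right]

theorem p_comm {m k : ℕ} (h : m + 3 ≤ k) : Commute (p m) (Y k) := by
  show Y (m + 1) * (Y (m + 2))⁻¹ * Y k = Y k * (Y (m + 1) * (Y (m + 2))⁻¹)
  rw [mul_assoc, inv_rel (by omega), ← mul_assoc, ← rel (show m + 1 < k by omega), mul_assoc]

theorem q_comm {m k : ℕ} (h : m + 3 ≤ k) : Commute (q m) (Y k) := by
  show Y (m + 1) * (Y m)⁻¹ * Y k = Y k * (Y (m + 1) * (Y m)⁻¹)
  rw [mul_assoc, inv_rel (by omega), ← mul_assoc, ← rel (show m + 1 < k by omega), mul_assoc]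

theorem p_conj (m : ℕ) : A ^ m * p m * (A ^ m)⁻¹ = p 0 := by
  unfold p
  have h1 := conjA m 1
  have h2 := conjA m 2
  rw [add_comm m 1, add_comm m 2, ← h1, ← h2]
  group

theorem q_conj (m : ℕ) : A ^ m * q m * (A ^ m)⁻¹ = q 0 := by
  unfold q
  have h1 := conjA m 1
  have h2 := conjA m 0
  rw [zero_add] at h2
  rw [add_comm m 1, ← h1, ← h2]
  simp only [zero_add]
  group

/-! ### The action on the rationals -/

def a' : Equiv.Perm ℚ := Equiv.addRight (-1)

def b' : Equiv.Perm ℚ where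
  toFun x := if x ≤ 0 then x else if x ≤ 2 then x / 2 else x - 1
  invFun y := if y ≤ 0 then y else if y ≤ 1 then 2 * y else y + 1
  left_inv x := by
    by_cases h0 : x ≤ 0
    · simp [h0]
    · by_cases h2 : x ≤ 2
      · have h3 : ¬ x / 2 ≤ 0 := by push Not at h0 ⊢; linarith
        have h4 : x / 2 ≤ 1 := by linarith
        simp only [h0, h2, if_false, if_true, h3, h4]
        ring
      · have h3 : ¬ x - 1 ≤ 0 := by push Not at h2 ⊢; linarith
        have h4 : ¬ x - 1 ≤ 1 := by push Not at h2 ⊢; linarith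
        simp only [h0, h2, if_false, h3, h4]
        ring
  right_inv y := by
    by_cases h0 : y ≤ 0
    · simp [h0]
    · by_cases h2 : y ≤ 1
      · have h3 : ¬ 2 * y ≤ 0 := by push Not at h0 ⊢; linarith
        have h4 : 2 * y ≤ 2 := by linarith
        simp only [h0, h2, if_false, if_true, h3, h4]
        ring
      · have h3 : ¬ y + 1 ≤ 0 := by push Not at h0 ⊢; linarith
        have h4 : ¬ y + 1 ≤ 2 := by push Not at h2 ⊢; linarith
        simp only [h0, h2, if_false, h3, h4]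
        ring

theorem a_app (x : ℚ) : a' x = x - 1 := by
  show x + -1 = x - 1
  ring

theorem ai_app (x : ℚ) : a'⁻¹ x = x + 1 := by
  rw [Equiv.Perm.inv_eq_iff_eq, a_app]
  ring

theorem b_app (x : ℚ) : b' x = if x ≤ 0 then x else if x ≤ 2 then x / 2 else x - 1 := rfl

theorem bi_app (y : ℚ) : b'⁻¹ y = if y ≤ 0 then y else if y ≤ 1 then 2 * y else y + 1 := rfl

theorem disj {f g : Equiv.Perm ℚ} (h1 : ∀ x, 1 ≤ x → f x = x) (h2 : ∀ x, x ≤ 1 → f x ≤ 1)
    (h3 : ∀ x, x ≤ 1 → g x = x) (h4 : ∀ x, 1 ≤ x → 1 ≤ g x) : comm f g = 1 := by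
  have h : f * g = g * f := by
    ext1 x
    rw [Equiv.Perm.mul_apply, Equiv.Perm.mul_apply]
    rcases le_total x 1 with h | h
    · rw [h3 x h, h3 _ (h2 x h)]
    · rw [h1 x h, h1 _ (h4 x h)]
  unfold comm
  rw [h]
  group

theorem f1 (x : ℚ) (h : 1 ≤ x) : (a' * b'⁻¹) x = x := by
  rw [Equiv.Perm.mul_apply, a_app, bi_app]
  split_ifs with h0 h1
  · linarith
  · linarith
  · ring

theorem f2 (x : ℚ) (h : x ≤ 1) : (a' * b'⁻¹) x ≤ 1 := by
  rw [Equiv.Perm.mul_apply, a_app, bi_app]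
  split_ifs with h0
  · linarith
  · linarith

theorem b_nonpos (x : ℚ) (h : x ≤ 0) : b' x = x := by
  rw [b_app, if_pos h]

theorem b_nonneg (x : ℚ) (h : 0 ≤ x) : 0 ≤ b' x := by
  rw [b_app]
  split_ifs with h0 h2
  · exact h
  · linarith
  · push Not at h2
    linarith

def gen : Fin 2 → Equiv.Perm ℚ := ![a', b']

theorem gen_rels : ∀ r ∈ FRels, FreeGroup.lift gen r = 1 := by
  have e0 : FreeGroup.lift gen (FreeGroup.of 0) = a' := by
    rw [FreeGroup.lift_apply_of]; rfl
  have e1 : FreeGroup.lift gen (FreeGroup.of 1) = b' := by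
    rw [FreeGroup.lift_apply_of]; rfl
  rintro r (rfl | rfl)
  · have : FreeGroup.lift gen (comm (FreeGroup.of 0 * (FreeGroup.of 1)⁻¹)
        ((FreeGroup.of 0)⁻¹ * FreeGroup.of 1 * FreeGroup.of 0)) =
        comm (a' * b'⁻¹) (a'⁻¹ * b' * a') := by
      simp only [comm, map_mul, map_inv, e0, e1]
    refine this.trans (disj f1 f2 (fun x hx => ?_) (fun x hx => ?_))
    · rw [Equiv.Perm.mul_apply, Equiv.Perm.mul_apply, ai_app, a_app, b_nonpos _ (by linarith)]
      ring
    · rw [Equiv.Perm.mul_apply, Equiv.Perm.mul_apply, ai_app, a_app]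
      have := b_nonneg (x - 1) (by linarith)
      linarith
  · have : FreeGroup.lift gen (comm (FreeGroup.of 0 * (FreeGroup.of 1)⁻¹)
        ((FreeGroup.of 0)⁻¹ * (FreeGroup.of 0)⁻¹ * FreeGroup.of 1 * FreeGroup.of 0 *
          FreeGroup.of 0)) =
        comm (a' * b'⁻¹) (a'⁻¹ * a'⁻¹ * b' * a' * a') := by
      simp only [comm, map_mul, map_inv, e0, e1]
    refine this.trans (disj f1 f2 (fun x hx => ?_) (fun x hx => ?_))
    · rw [Equiv.Perm.mul_apply, Equiv.Perm.mul_apply, Equiv.Perm.mul_apply, Equiv.Perm.mul_apply,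
        ai_app, ai_app, a_app, a_app, b_nonpos _ (by linarith)]
      ring
    · rw [Equiv.Perm.mul_apply, Equiv.Perm.mul_apply, Equiv.Perm.mul_apply, Equiv.Perm.mul_apply,
        ai_app, ai_app, a_app, a_app]
      rcases le_total (x - 1 - 1) 0 with h | h
      · rw [b_nonpos _ h]; linarith
      · have := b_nonneg (x - 1 - 1) h
        linarith

def φ : TF →* Equiv.Perm ℚ := PresentedGroup.toGroup gen_rels

theorem φA : φ A = a' := by
  unfold φ A
  rw [PresentedGroup.toGroup.of]; rfl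

theorem φB : φ B = b' := by
  unfold φ B
  rw [PresentedGroup.toGroup.of]; rfl

theorem φY1 (x : ℚ) : φ (Y 1) x = b' (x - 1) + 1 := by
  have : Y 1 = A⁻¹ * B * A := by simp [Y]
  rw [this, map_mul, map_mul, map_inv, φA, φB, Equiv.Perm.mul_apply, Equiv.Perm.mul_apply, ai_app,
    a_app]

theorem φY2i (x : ℚ) (h : x ≤ 2) : (φ (Y 2))⁻¹ x = x := by
  rw [Equiv.Perm.inv_eq_iff_eq]
  have : Y 2 = A⁻¹ * A⁻¹ * B * A * A := by
    unfold Y
    rw [pow_two]
    group
  rw [this, map_mul, map_mul, map_mul, map_mul, map_inv, φA, φB, Equiv.Perm.mul_apply,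
    Equiv.Perm.mul_apply, Equiv.Perm.mul_apply, Equiv.Perm.mul_apply, ai_app, ai_app, a_app, a_app,
    b_nonpos _ (by linarith)]
  ring

theorem φp (x : ℚ) (h1 : 1 ≤ x) (h2 : x < 2) : φ (p 0) x = (x + 1) / 2 := by
  unfold p
  rw [map_mul, map_inv, Equiv.Perm.mul_apply]
  simp only [zero_add]
  rw [φY2i x h2.le, φY1, b_app]
  split_ifs with h0 h3
  · have : x = 1 := by linarith
    rw [this]; norm_num
  · ring
  · exfalso; push Not at h3; linarith

theorem φq (x : ℚ) (h1 : 1 ≤ x) (h2 : x < 2) : φ (q 0) x = (x + 2) / 2 := by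
  unfold q
  have e0 : Y 0 = B := by simp [Y]
  rw [map_mul, map_inv, Equiv.Perm.mul_apply]
  simp only [zero_add]
  rw [e0, φB, φY1, bi_app]
  have h3 : ¬ x ≤ 0 := by push Not; linarith
  by_cases h4 : x ≤ 1
  · have : x = 1 := le_antisymm h4 h1
    subst this
    rw [b_app]
    norm_num
  · simp only [h3, h4, if_false]
    rw [b_app]
    have h5 : ¬ (x + 1 - 1 ≤ 0) := by push Not; linarith
    have h6 : x + 1 - 1 ≤ 2 := by linarith
    simp only [h5, h6, if_false, if_true]
    ring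

/-! ### Growth -/

/-- the word given by a list of truth values -/
def w (m : ℕ) (l : List Bool) : TF := (l.map fun b => if b then p m else q m).prod

/-- the point given by a list of truth values -/
def pt : List Bool → ℚ
  | [] => 1
  | b :: l => if b then (pt l + 1) / 2 else (pt l + 2) / 2

theorem pt_mem (l : List Bool) : 1 ≤ pt l ∧ pt l < 2 := by
  induction l with
  | nil => exact ⟨le_refl _, by norm_num [pt]⟩
  | cons b l ih =>
    obtain ⟨h1, h2⟩ := ih
    cases b <;> simp only [pt, if_true, Bool.false_eq_true, if_false] <;> constructor <;> linarith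

theorem pt_inj : ∀ l l' : List Bool, l.length = l'.length → pt l = pt l' → l = l' := by
  intro l
  induction l with
  | nil =>
    intro l' h _
    exact (List.length_eq_zero_iff.1 h.symm).symm
  | cons b l ih =>
    intro l' h hp
    cases l' with
    | nil => simp at h
    | cons b' l' =>
      have h1 := pt_mem l
      have h2 := pt_mem l'
      have hl : l.length = l'.length := by simpa using h
      cases b <;> cases b' <;> simp only [pt, if_true, Bool.false_eq_true, if_false] at hp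
      · rw [ih l' hl (by linarith)]
      · exfalso; linarith
      · exfalso; linarith
      · rw [ih l' hl (by linarith)]

theorem w_pt (m : ℕ) (l : List Bool) : φ (A ^ m * w m l * (A ^ m)⁻¹) 1 = pt l := by
  induction l with
  | nil => simp [w, pt]
  | cons b l ih =>
    have e : A ^ m * w m (b :: l) * (A ^ m)⁻¹ =
        (A ^ m * (if b then p m else q m) * (A ^ m)⁻¹) * (A ^ m * w m l * (A ^ m)⁻¹) := by
      unfold w
      rw [List.map_cons, List.prod_cons]
      group
    have hm := pt_mem l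
    rw [e, map_mul, Equiv.Perm.mul_apply, ih]
    cases b
    · simp only [Bool.false_eq_true, if_false, pt]
      rw [q_conj, φq _ hm.1 hm.2]
    · simp only [if_true, pt]
      rw [p_conj, φp _ hm.1 hm.2]

theorem w_inj (m : ℕ) {l l' : List Bool} (h : l.length = l'.length) (hw : w m l = w m l') :
    l = l' := by
  apply pt_inj l l' h
  rw [← w_pt m, ← w_pt m, hw]

open Classical in
theorem words_card (m L : ℕ) : 2 ^ L ≤ (Words ({p m, q m} : Finset TF) L).ncard := by
  have hsub : Set.range (fun v : List.Vector Bool L => w m v.1) ⊆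
      Words ({p m, q m} : Finset TF) L := by
    rintro _ ⟨v, rfl⟩
    refine ⟨v.1.map fun b => if b then p m else q m, ?_, ?_, rfl⟩
    · rw [List.length_map]; exact v.2
    · intro x hx
      rw [List.mem_map] at hx
      obtain ⟨b, _, rfl⟩ := hx
      cases b <;> simp
  have hfin : (Words ({p m, q m} : Finset TF) L).Finite := by
    have : Words ({p m, q m} : Finset TF) L ⊆
        Set.range (fun v : Fin L → {x // x ∈ ({p m, q m} : Finset TF)} =>
          (List.ofFn (fun i => (v i : TF))).prod) := by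
      rintro g ⟨l, h1, h2, h3⟩
      subst h1
      refine ⟨fun i => ⟨l.get i, h2 _ (List.get_mem l i)⟩, ?_⟩
      show (List.ofFn (fun i => l.get i)).prod = g
      rw [List.ofFn_get]
      exact h3
    exact (Set.finite_range _).subset this
  have hinj : Function.Injective (fun v : List.Vector Bool L => w m v.1) := by
    intro v v' h
    exact Subtype.ext (w_inj m (v.2.trans v'.2.symm) h)
  calc 2 ^ L = Nat.card (List.Vector Bool L) := by
        rw [Nat.card_eq_fintype_card, card_vector]; simp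
    _ = (Set.range (fun v : List.Vector Bool L => w m v.1)).ncard := by
        rw [← Set.image_univ, Set.ncard_image_of_injective _ hinj, Set.ncard_univ]
    _ ≤ _ := Set.ncard_le_ncard hsub hfin

theorem exists_L (D K : ℕ) : ∃ L : ℕ, 1 ≤ L ∧ K * L ^ D ≤ 2 ^ L := by
  have h := tendsto_pow_const_div_const_pow_of_one_lt D (r := (2 : ℝ)) (by norm_num)
  have h2 : ∀ᶠ n : ℕ in Filter.atTop, ((n : ℝ) ^ D / 2 ^ n) < 1 / ((K : ℝ) + 1) :=
    (tendsto_order.1 h).2 _ (by positivity)
  obtain ⟨L, hL, hL1⟩ := (h2.and (Filter.eventually_ge_atTop 1)).exists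
  refine ⟨L, hL1, ?_⟩
  have h3 : ((K : ℝ)) * (L : ℝ) ^ D ≤ 2 ^ L := by
    rw [div_lt_div_iff₀ (by positivity) (by positivity)] at hL
    have : 0 ≤ (L : ℝ) ^ D := by positivity
    nlinarith
  exact_mod_cast h3

theorem set_comm {i j : ℕ} (h : i < j) {g g' : TF} (hg : g = p (3 * i) ∨ g = q (3 * i))
    (hg' : g' = p (3 * j) ∨ g' = q (3 * j)) : Commute g g' := by
  have key : ∀ k, 3 * j ≤ k → Commute g (Y k) := by
    intro k hk
    rcases hg with rfl | rfl
    · exact p_comm (by omega)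
    · exact q_comm (by omega)
  rcases hg' with rfl | rfl
  · exact (key _ (by omega)).mul_right (key _ (by omega)).inv_right
  · exact (key _ (by omega)).mul_right (key _ le_rfl).inv_right

theorem taskF : TaskF := by
  classical
  intro n
  refine ⟨fun i => {p (3 * i), q (3 * i)}, fun _ _ _ => trivial, ?_, ?_⟩
  · intro i j hij g hg h hh
    have hg' : g = p (3 * i) ∨ g = q (3 * i) := by simpa using hg
    have hh' : h = p (3 * j) ∨ h = q (3 * j) := by simpa using hh
    rcases lt_or_gt_of_ne (fun e => hij (Fin.ext e) : (i : ℕ) ≠ j) with hlt | hlt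
    · exact set_comm hlt hg' hh'
    · exact (set_comm hlt hh' hg').symm
  · intro D K
    obtain ⟨L, hL, h⟩ := exists_L D K
    refine ⟨L, hL, fun i => h.trans ?_⟩
    convert words_card (3 * i) L

end

end H812R5.F
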