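import Pool.Agent.H812R5.Stmts

/-! # TASK G: the Grigorchuk group contains commuting sets of superpolynomial growth -/

namespace H812R5.G

set_option linter.unusedSimpArgs false

open H812R5

/-! ### The homomorphism `pr` -/

/-- Removing the first letter. -/
def tl (w : Seq) : Seq := fun n => w (n + 1)

theorem cons_eta (w : Seq) : cons (w 0) (tl w) = w := by
  funext n
  cases n <;> rfl

theorem tl_cons (x : Bool) (w : Seq) : tl (cons x w) = w := rfl

theorem cons_zero (x : Bool) (w : Seq) : cons x w 0 = x := rfl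

theorem cons_succ (x : Bool) (w : Seq) (n : ℕ) : cons x w (n + 1) = w n := rfl

/-- The permutation that acts by `f` after the first letter `false` and by `g` after `true`. -/
def pr (f g : Equiv.Perm Seq) : Equiv.Perm Seq where
  toFun w := cons (w 0) (bif w 0 then g (tl w) else f (tl w))
  invFun w := cons (w 0) (bif w 0 then g.symm (tl w) else f.symm (tl w))
  left_inv w := by
    simp only [cons_zero, tl_cons]
    conv_rhs => rw [← cons_eta w]
    cases w 0 <;> simp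
  right_inv w := by
    simp only [cons_zero, tl_cons]
    conv_rhs => rw [← cons_eta w]
    cases w 0 <;> simp

theorem pr_false (f g : Equiv.Perm Seq) (w : Seq) : pr f g (cons false w) = cons false (f w) := rfl

theorem pr_true (f g : Equiv.Perm Seq) (w : Seq) : pr f g (cons true w) = cons true (g w) := rfl

theorem ext_cons {f g : Equiv.Perm Seq} (h0 : ∀ w, f (cons false w) = g (cons false w))
    (h1 : ∀ w, f (cons true w) = g (cons true w)) : f = g := by
  refine Equiv.ext fun w => ?_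
  rw [← cons_eta w]
  cases w 0
  · exact h0 _
  · exact h1 _

theorem cons_inj {x : Bool} {w w' : Seq} (h : cons x w = cons x w') : w = w' := by
  have := congrArg tl h
  exact this

theorem pr_mul (f g f' g' : Equiv.Perm Seq) : pr f g * pr f' g' = pr (f * f') (g * g') :=
  ext_cons (fun _ => rfl) (fun _ => rfl)

theorem pr_one : pr 1 1 = 1 := ext_cons (fun _ => rfl) (fun _ => rfl)

theorem pr_inj {f g f' g' : Equiv.Perm Seq} (h : pr f g = pr f' g') : f = f' ∧ g = g' := by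
  constructor
  · refine Equiv.ext fun w => ?_
    have := congrArg (fun p : Equiv.Perm Seq => p (cons false w)) h
    exact cons_inj this
  · refine Equiv.ext fun w => ?_
    have := congrArg (fun p : Equiv.Perm Seq => p (cons true w)) h
    exact cons_inj this

/-- The first embedding. -/
def psi0 : Equiv.Perm Seq →* Equiv.Perm Seq where
  toFun x := pr x 1
  map_one' := pr_one
  map_mul' x y := by rw [pr_mul, one_mul]

/-- The second embedding. -/
def psi1 : Equiv.Perm Seq →* Equiv.Perm Seq where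
  toFun x := pr 1 x
  map_one' := pr_one
  map_mul' x y := by rw [pr_mul, one_mul]

theorem psi0_apply (x : Equiv.Perm Seq) : psi0 x = pr x 1 := rfl
theorem psi1_apply (x : Equiv.Perm Seq) : psi1 x = pr 1 x := rfl

/-- Coinduction. -/
theorem coind (R : Equiv.Perm Seq → Equiv.Perm Seq → Prop)
    (h : ∀ f g, R f g → ∃ f0 f1 g0 g1, f = pr f0 f1 ∧ g = pr g0 g1 ∧
      (f0 = g0 ∨ R f0 g0) ∧ (f1 = g1 ∨ R f1 g1)) (f g : Equiv.Perm Seq) (hR : R f g) : f = g := by
  have key : ∀ n : ℕ, ∀ f g, R f g → ∀ w : Seq, f w n = g w n := by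
    intro n
    induction n with
    | zero =>
      intro f g hR w
      obtain ⟨f0, f1, g0, g1, rfl, rfl, -, -⟩ := h f g hR
      rfl
    | succ n ih =>
      intro f g hR w
      obtain ⟨f0, f1, g0, g1, rfl, rfl, h0, h1⟩ := h f g hR
      rw [← cons_eta w]
      cases w 0
      · rw [pr_false, pr_false, cons_succ, cons_succ]
        rcases h0 with h0 | h0
        · rw [h0]
        · exact ih _ _ h0 _
      · rw [pr_true, pr_true, cons_succ, cons_succ]
        rcases h1 with h1 | h1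
        · rw [h1]
        · exact ih _ _ h1 _
  exact Equiv.ext fun w => funext fun n => key n f g hR w

/-! ### Words -/

section

variable {G : Type} [Group G]

theorem words_mul {U : Finset G} {L M : ℕ} {g h : G} (hg : g ∈ Words U L) (hh : h ∈ Words U M) :
    g * h ∈ Words U (L + M) := by
  obtain ⟨l, h1, h2, rfl⟩ := hg
  obtain ⟨m, h3, h4, rfl⟩ := hh
  refine ⟨l ++ m, by simp [h1, h3], fun x hx => ?_, by simp⟩
  rcases List.mem_append.1 hx with hx | hx
  · exact h2 x hx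
  · exact h4 x hx

theorem words_hom {G' : Type} [Group G'] {U : Finset G} {V : Finset G'} (φ : G →* G') {m : ℕ}
    (h : ∀ x ∈ U, φ x ∈ Words V m) (L : ℕ) : ∀ g ∈ Words U L, φ g ∈ Words V (m * L) := by
  induction L with
  | zero =>
    rintro g ⟨l, h1, -, rfl⟩
    rw [List.length_eq_zero_iff] at h1
    subst h1
    exact ⟨[], by simp, by simp, by simp⟩
  | succ L ih =>
    rintro g ⟨l, h1, h2, rfl⟩
    rcases l with _ | ⟨x, l⟩
    · simp at h1
    · rw [List.prod_cons, map_mul, Nat.mul_succ, add_comm]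
      refine words_mul (h x (h2 x (by simp))) (ih _ ⟨l, by simpa using h1, fun y hy => ?_, rfl⟩)
      exact h2 y (by simp [hy])

theorem words_finite (U : Finset G) (L : ℕ) : (Words U L).Finite := by
  classical
  induction L with
  | zero =>
    refine (Set.finite_singleton (1 : G)).subset ?_
    rintro g ⟨l, h1, -, rfl⟩
    rw [List.length_eq_zero_iff] at h1
    subst h1
    simp
  | succ L ih =>
    refine ((U.finite_toSet).image2 (fun x y => x * y) ih).subset ?_
    rintro g ⟨l, h1, h2, rfl⟩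
    rcases l with _ | ⟨x, l⟩
    · simp at h1
    · exact ⟨x, by simpa using h2 x (by simp), l.prod,
        ⟨l, by simpa using h1, fun y hy => h2 y (by simp [hy]), rfl⟩, by simp⟩

end

/-! ### The Grigorchuk group -/

section

variable {a b c d : Equiv.Perm Seq} (hG : IsGrig a b c d)

include hG

theorem aa : a * a = 1 := by
  obtain ⟨h1, h2, -⟩ := hG
  refine ext_cons (fun w => ?_) fun w => ?_
  · rw [Equiv.Perm.mul_apply, h1, h2]; rfl
  · rw [Equiv.Perm.mul_apply, h2, h1]; rfl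

theorem hb : b = pr a c := ext_cons hG.2.2.1 hG.2.2.2.1

theorem hc : c = pr a d := ext_cons hG.2.2.2.2.1 hG.2.2.2.2.2.1

theorem hd : d = pr 1 b := ext_cons hG.2.2.2.2.2.2.1 hG.2.2.2.2.2.2.2

theorem conj_a (f g : Equiv.Perm Seq) : a * pr f g * a = pr g f := by
  obtain ⟨h1, h2, -⟩ := hG
  refine ext_cons (fun w => ?_) fun w => ?_
  · rw [Equiv.Perm.mul_apply, Equiv.Perm.mul_apply, h1, pr_true, h2, pr_false]
  · rw [Equiv.Perm.mul_apply, Equiv.Perm.mul_apply, h2, pr_false, h1, pr_true]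

theorem sq_aux : b * b = 1 ∧ c * c = 1 ∧ d * d = 1 := by
  have key := coind (fun f g => (f = b * b ∧ g = 1) ∨ (f = c * c ∧ g = 1) ∨ (f = d * d ∧ g = 1))
    (by
      rintro f g (⟨rfl, rfl⟩ | ⟨rfl, rfl⟩ | ⟨rfl, rfl⟩)
      · refine ⟨a * a, c * c, 1, 1, ?_, pr_one.symm, Or.inl (aa hG), Or.inr ?_⟩
        · rw [← pr_mul, ← hb hG]
        · exact Or.inr (Or.inl ⟨rfl, rfl⟩)
      · refine ⟨a * a, d * d, 1, 1, ?_, pr_one.symm, Or.inl (aa hG), Or.inr ?_⟩
        · rw [← pr_mul, ← hc hG]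
        · exact Or.inr (Or.inr ⟨rfl, rfl⟩)
      · refine ⟨1 * 1, b * b, 1, 1, ?_, pr_one.symm, Or.inl (one_mul _), Or.inr ?_⟩
        · rw [← pr_mul, ← hd hG]
        · exact Or.inl ⟨rfl, rfl⟩)
  exact ⟨key _ _ (Or.inl ⟨rfl, rfl⟩), key _ _ (Or.inr (Or.inl ⟨rfl, rfl⟩)),
    key _ _ (Or.inr (Or.inr ⟨rfl, rfl⟩))⟩

theorem bc_aux : b * c = d ∧ c * d = b ∧ d * b = c := by
  have key := coind (fun f g => (f = b * c ∧ g = d) ∨ (f = c * d ∧ g = b) ∨ (f = d * b ∧ g = c))
    (by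
      rintro f g (⟨rfl, rfl⟩ | ⟨rfl, rfl⟩ | ⟨rfl, rfl⟩)
      · refine ⟨a * a, c * g, 1, b, ?_, hd hG, Or.inl (aa hG), Or.inr ?_⟩
        · rw [← pr_mul, ← hb hG, ← hc hG]
        · exact Or.inr (Or.inl ⟨rfl, rfl⟩)
      · refine ⟨a * 1, d * g, a, c, ?_, hb hG, Or.inl (mul_one _), Or.inr ?_⟩
        · rw [← pr_mul, ← hc hG, ← hd hG]
        · exact Or.inr (Or.inr ⟨rfl, rfl⟩)
      · refine ⟨1 * a, b * g, a, d, ?_, hc hG, Or.inl (one_mul _), Or.inr ?_⟩
        · rw [← pr_mul, ← hb hG, ← hd hG]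
        · exact Or.inl ⟨rfl, rfl⟩)
  exact ⟨key _ _ (Or.inl ⟨rfl, rfl⟩), key _ _ (Or.inr (Or.inl ⟨rfl, rfl⟩)),
    key _ _ (Or.inr (Or.inr ⟨rfl, rfl⟩))⟩


/-- All relations between the generators that we need, as rewriting rules. -/
theorem rels : (a * a = 1 ∧ b * b = 1 ∧ c * c = 1 ∧ d * d = 1) ∧
    (b * c = d ∧ c * b = d ∧ c * d = b ∧ d * c = b ∧ d * b = c ∧ b * d = c) ∧
    ((∀ x, a * (a * x) = x) ∧ (∀ x, b * (b * x) = x) ∧ (∀ x, c * (c * x) = x) ∧
      (∀ x, d * (d * x) = x)) ∧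
    ((∀ x, b * (c * x) = d * x) ∧ (∀ x, c * (b * x) = d * x) ∧ (∀ x, c * (d * x) = b * x) ∧
      (∀ x, d * (c * x) = b * x) ∧ (∀ x, d * (b * x) = c * x) ∧ ∀ x, b * (d * x) = c * x) := by
  have h1 := aa hG
  obtain ⟨h2, h3, h4⟩ := sq_aux hG
  obtain ⟨h5, h6, h7⟩ := bc_aux hG
  have h8 : c * b = d := by
    have : c * b = (b * c)⁻¹ := by
      rw [mul_inv_rev, inv_eq_of_mul_eq_one_right h2, inv_eq_of_mul_eq_one_right h3]
    rw [this, h5, inv_eq_of_mul_eq_one_right h4]
  have h9 : d * c = b := by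
    have : d * c = (c * d)⁻¹ := by
      rw [mul_inv_rev, inv_eq_of_mul_eq_one_right h3, inv_eq_of_mul_eq_one_right h4]
    rw [this, h6, inv_eq_of_mul_eq_one_right h2]
  have h10 : b * d = c := by
    have : b * d = (d * b)⁻¹ := by
      rw [mul_inv_rev, inv_eq_of_mul_eq_one_right h2, inv_eq_of_mul_eq_one_right h4]
    rw [this, h7, inv_eq_of_mul_eq_one_right h3]
  refine ⟨⟨h1, h2, h3, h4⟩, ⟨h5, h8, h6, h9, h7, h10⟩, ⟨?_, ?_, ?_, ?_⟩, ?_, ?_, ?_, ?_, ?_, ?_⟩ <;>
    intro x <;> rw [← mul_assoc]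
  · rw [h1, one_mul]
  · rw [h2, one_mul]
  · rw [h3, one_mul]
  · rw [h4, one_mul]
  · rw [h5]
  · rw [h8]
  · rw [h6]
  · rw [h9]
  · rw [h7]
  · rw [h10]

end

/-- The words `t`, `v`, `w` and their inverses. -/
abbrev tW (a b : Equiv.Perm Seq) : Equiv.Perm Seq := a * b * a * b
abbrev tI (a b : Equiv.Perm Seq) : Equiv.Perm Seq := b * a * b * a
abbrev wW (a b d : Equiv.Perm Seq) : Equiv.Perm Seq := a * b * a * d * a * b * a * d
abbrev wI (a b d : Equiv.Perm Seq) : Equiv.Perm Seq := d * a * b * a * d * a * b * a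
abbrev vW (a b d : Equiv.Perm Seq) : Equiv.Perm Seq := b * a * d * a * b * a * d * a
abbrev vI (a b d : Equiv.Perm Seq) : Equiv.Perm Seq := a * d * a * b * a * d * a * b

section

variable {a b c d : Equiv.Perm Seq} (hG : IsGrig a b c d)

include hG

theorem aba : a * b * a = pr c a := by
  conv_lhs => rw [hb hG]
  exact conj_a hG _ _

theorem ada : a * d * a = pr b 1 := by
  conv_lhs => rw [hd hG]
  exact conj_a hG _ _

theorem pr_t : tW a b = pr (c * a) (a * c) := by
  unfold tW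
  rw [aba hG]
  conv_lhs => rw [hb hG]
  rw [pr_mul]

theorem pr_tI : tI a b = pr (a * c) (c * a) := by
  unfold tI
  have h : b * a * b * a = b * (a * b * a) := by simp only [mul_assoc]
  rw [h, aba hG]
  conv_lhs => rw [hb hG]
  rw [pr_mul]

theorem pr_w : wW a b d = pr 1 (tW a b) := by
  have h : wW a b d = ((a * b * a) * d) * ((a * b * a) * d) := by
    unfold wW
    simp only [mul_assoc]
  have h2 : a * b * a * d = pr c (a * b) := by
    rw [aba hG]
    conv_lhs => rw [hd hG]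
    rw [pr_mul, mul_one]
  rw [h, h2, pr_mul, (rels hG).1.2.2.1]
  unfold tW
  simp only [mul_assoc]

theorem pr_wI : wI a b d = pr 1 (tI a b) := by
  have h : wI a b d = (d * (a * b * a)) * (d * (a * b * a)) := by
    unfold wI
    simp only [mul_assoc]
  have h2 : d * (a * b * a) = pr c (b * a) := by
    rw [aba hG]
    conv_lhs => rw [hd hG]
    rw [pr_mul, one_mul]
  rw [h, h2, pr_mul, (rels hG).1.2.2.1]
  unfold tI
  simp only [mul_assoc]

theorem pr_v : vW a b d = pr (tW a b) 1 := by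
  have h : vW a b d = (b * (a * d * a)) * (b * (a * d * a)) := by
    unfold vW
    simp only [mul_assoc]
  have h2 : b * (a * d * a) = pr (a * b) c := by
    rw [ada hG]
    have h3 : b * pr b 1 = pr a c * pr b 1 := by rw [← hb hG]
    rw [h3, pr_mul, mul_one]
  rw [h, h2, pr_mul, (rels hG).1.2.2.1]
  unfold tW
  simp only [mul_assoc]

theorem pr_vI : vI a b d = pr (tI a b) 1 := by
  have h : vI a b d = ((a * d * a) * b) * ((a * d * a) * b) := by
    unfold vI
    simp only [mul_assoc]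
  have h2 : a * d * a * b = pr (b * a) c := by
    rw [ada hG]
    have h3 : pr b 1 * b = pr b 1 * pr a c := by rw [← hb hG]
    rw [h3, pr_mul, one_mul]
  rw [h, h2, pr_mul, (rels hG).1.2.2.1]
  unfold tI
  simp only [mul_assoc]

omit hG in
theorem mul4 {x x' y y' z z' u u' : Equiv.Perm Seq} (h1 : x = x') (h2 : y = y') (h3 : z = z')
    (h4 : u = u') : x * y * z * u = x' * y' * z' * u' := by
  rw [h1, h2, h3, h4]

theorem id1 : pr 1 (wW a b d) = wW a b d * tI a b * wI a b d * tW a b := by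
  refine Eq.trans ?_ (mul4 (pr_w hG) (pr_tI hG) (pr_wI hG) (pr_t hG)).symm
  rw [pr_mul, pr_mul, pr_mul]
  obtain ⟨⟨h1, h2, h3, h4⟩, ⟨h5, h6, h7, h8, h9, h10⟩, ⟨h11, h12, h13, h14⟩, h15, h16, h17, h18,
    h19, h20⟩ := rels hG
  congr 1 <;>
  simp only [wW, wI, vW, vI, tW, tI, mul_assoc, one_mul, mul_one, h1, h2, h3, h4, h5, h6, h7, h8,
    h9, h10, h11, h12, h13, h14, h15, h16, h17, h18, h19, h20]

theorem id2 : pr 1 (wI a b d) = tI a b * wW a b d * tW a b * wI a b d := by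
  refine Eq.trans ?_ (mul4 (pr_tI hG) (pr_w hG) (pr_t hG) (pr_wI hG)).symm
  rw [pr_mul, pr_mul, pr_mul]
  obtain ⟨⟨h1, h2, h3, h4⟩, ⟨h5, h6, h7, h8, h9, h10⟩, ⟨h11, h12, h13, h14⟩, h15, h16, h17, h18,
    h19, h20⟩ := rels hG
  congr 1 <;>
  simp only [wW, wI, vW, vI, tW, tI, mul_assoc, one_mul, mul_one, h1, h2, h3, h4, h5, h6, h7, h8,
    h9, h10, h11, h12, h13, h14, h15, h16, h17, h18, h19, h20]

theorem id3 : pr (wW a b d) 1 = vW a b d * tW a b * vI a b d * tI a b := by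
  refine Eq.trans ?_ (mul4 (pr_v hG) (pr_t hG) (pr_vI hG) (pr_tI hG)).symm
  rw [pr_mul, pr_mul, pr_mul]
  obtain ⟨⟨h1, h2, h3, h4⟩, ⟨h5, h6, h7, h8, h9, h10⟩, ⟨h11, h12, h13, h14⟩, h15, h16, h17, h18,
    h19, h20⟩ := rels hG
  congr 1 <;>
  simp only [wW, wI, vW, vI, tW, tI, mul_assoc, one_mul, mul_one, h1, h2, h3, h4, h5, h6, h7, h8,
    h9, h10, h11, h12, h13, h14, h15, h16, h17, h18, h19, h20]

theorem id4 : pr (wI a b d) 1 = tW a b * vW a b d * tI a b * vI a b d := by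
  refine Eq.trans ?_ (mul4 (pr_t hG) (pr_v hG) (pr_tI hG) (pr_vI hG)).symm
  rw [pr_mul, pr_mul, pr_mul]
  obtain ⟨⟨h1, h2, h3, h4⟩, ⟨h5, h6, h7, h8, h9, h10⟩, ⟨h11, h12, h13, h14⟩, h15, h16, h17, h18,
    h19, h20⟩ := rels hG
  congr 1 <;>
  simp only [wW, wI, vW, vI, tW, tI, mul_assoc, one_mul, mul_one, h1, h2, h3, h4, h5, h6, h7, h8,
    h9, h10, h11, h12, h13, h14, h15, h16, h17, h18, h19, h20]

theorem id5 : pr 1 (vW a b d) = wI a b d * tW a b * wW a b d * tI a b := by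
  refine Eq.trans ?_ (mul4 (pr_wI hG) (pr_t hG) (pr_w hG) (pr_tI hG)).symm
  rw [pr_mul, pr_mul, pr_mul]
  obtain ⟨⟨h1, h2, h3, h4⟩, ⟨h5, h6, h7, h8, h9, h10⟩, ⟨h11, h12, h13, h14⟩, h15, h16, h17, h18,
    h19, h20⟩ := rels hG
  congr 1 <;>
  simp only [wW, wI, vW, vI, tW, tI, mul_assoc, one_mul, mul_one, h1, h2, h3, h4, h5, h6, h7, h8,
    h9, h10, h11, h12, h13, h14, h15, h16, h17, h18, h19, h20]

theorem id6 : pr 1 (vI a b d) = tW a b * wI a b d * tI a b * wW a b d := by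
  refine Eq.trans ?_ (mul4 (pr_t hG) (pr_wI hG) (pr_tI hG) (pr_w hG)).symm
  rw [pr_mul, pr_mul, pr_mul]
  obtain ⟨⟨h1, h2, h3, h4⟩, ⟨h5, h6, h7, h8, h9, h10⟩, ⟨h11, h12, h13, h14⟩, h15, h16, h17, h18,
    h19, h20⟩ := rels hG
  congr 1 <;>
  simp only [wW, wI, vW, vI, tW, tI, mul_assoc, one_mul, mul_one, h1, h2, h3, h4, h5, h6, h7, h8,
    h9, h10, h11, h12, h13, h14, h15, h16, h17, h18, h19, h20]

theorem id7 : pr (vW a b d) 1 = vI a b d * tI a b * vW a b d * tW a b := by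
  refine Eq.trans ?_ (mul4 (pr_vI hG) (pr_tI hG) (pr_v hG) (pr_t hG)).symm
  rw [pr_mul, pr_mul, pr_mul]
  obtain ⟨⟨h1, h2, h3, h4⟩, ⟨h5, h6, h7, h8, h9, h10⟩, ⟨h11, h12, h13, h14⟩, h15, h16, h17, h18,
    h19, h20⟩ := rels hG
  congr 1 <;>
  simp only [wW, wI, vW, vI, tW, tI, mul_assoc, one_mul, mul_one, h1, h2, h3, h4, h5, h6, h7, h8,
    h9, h10, h11, h12, h13, h14, h15, h16, h17, h18, h19, h20]

theorem id8 : pr (vI a b d) 1 = tI a b * vI a b d * tW a b * vW a b d := by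
  refine Eq.trans ?_ (mul4 (pr_tI hG) (pr_vI hG) (pr_t hG) (pr_v hG)).symm
  rw [pr_mul, pr_mul, pr_mul]
  obtain ⟨⟨h1, h2, h3, h4⟩, ⟨h5, h6, h7, h8, h9, h10⟩, ⟨h11, h12, h13, h14⟩, h15, h16, h17, h18,
    h19, h20⟩ := rels hG
  congr 1 <;>
  simp only [wW, wI, vW, vI, tW, tI, mul_assoc, one_mul, mul_one, h1, h2, h3, h4, h5, h6, h7, h8,
    h9, h10, h11, h12, h13, h14, h15, h16, h17, h18, h19, h20]


omit hG in
open Classical in
/-- The finite set. -/
noncomputable def U0 (a b d : Equiv.Perm Seq) : Finset (Equiv.Perm Seq) :=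
  {1, tW a b, tI a b, vW a b d, vI a b d, wW a b d, wI a b d}

omit hG in
theorem mem_U0 {x : Equiv.Perm Seq} : x ∈ U0 a b d ↔ x = 1 ∨ x = tW a b ∨ x = tI a b ∨
    x = vW a b d ∨ x = vI a b d ∨ x = wW a b d ∨ x = wI a b d := by
  classical
  unfold U0
  simp only [Finset.mem_insert, Finset.mem_singleton]

omit hG in
theorem word4 {x y z u : Equiv.Perm Seq} (hx : x ∈ U0 a b d) (hy : y ∈ U0 a b d)
    (hz : z ∈ U0 a b d) (hu : u ∈ U0 a b d) : x * y * z * u ∈ Words (U0 a b d) 4 := by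
  refine ⟨[x, y, z, u], rfl, ?_, ?_⟩
  · intro p hp
    simp only [List.mem_cons, List.not_mem_nil, or_false] at hp
    rcases hp with rfl | rfl | rfl | rfl <;> assumption
  · simp only [List.prod_cons, List.prod_nil, mul_one, mul_assoc]

omit hG in
theorem word1 {x : Equiv.Perm Seq} (hx : x ∈ U0 a b d) : x ∈ Words (U0 a b d) 4 := by
  have h1 : (1 : Equiv.Perm Seq) ∈ U0 a b d := mem_U0.2 (Or.inl rfl)
  have h := word4 hx h1 h1 h1
  simpa using h

theorem psi_mem : ∀ x ∈ U0 a b d, psi0 x ∈ Words (U0 a b d) 4 ∧ psi1 x ∈ Words (U0 a b d) 4 := by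
  have h1 : (1 : Equiv.Perm Seq) ∈ U0 a b d := mem_U0.2 (Or.inl rfl)
  have ht : tW a b ∈ U0 a b d := mem_U0.2 (Or.inr (Or.inl rfl))
  have htI : tI a b ∈ U0 a b d := mem_U0.2 (Or.inr (Or.inr (Or.inl rfl)))
  have hv : vW a b d ∈ U0 a b d := mem_U0.2 (Or.inr (Or.inr (Or.inr (Or.inl rfl))))
  have hvI : vI a b d ∈ U0 a b d := mem_U0.2 (Or.inr (Or.inr (Or.inr (Or.inr (Or.inl rfl)))))
  have hw : wW a b d ∈ U0 a b d :=
    mem_U0.2 (Or.inr (Or.inr (Or.inr (Or.inr (Or.inr (Or.inl rfl))))))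
  have hwI : wI a b d ∈ U0 a b d :=
    mem_U0.2 (Or.inr (Or.inr (Or.inr (Or.inr (Or.inr (Or.inr rfl))))))
  intro x hx
  rw [psi0_apply, psi1_apply]
  rcases mem_U0.1 hx with h | h | h | h | h | h | h <;> rw [h]
  · rw [pr_one]
    exact ⟨word1 h1, word1 h1⟩
  · rw [← pr_v hG, ← pr_w hG]
    exact ⟨word1 hv, word1 hw⟩
  · rw [← pr_vI hG, ← pr_wI hG]
    exact ⟨word1 hvI, word1 hwI⟩
  · rw [id7 hG, id5 hG]
    exact ⟨word4 hvI htI hv ht, word4 hwI ht hw htI⟩
  · rw [id8 hG, id6 hG]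
    exact ⟨word4 htI hvI ht hv, word4 ht hwI htI hw⟩
  · rw [id3 hG, id1 hG]
    exact ⟨word4 hv ht hvI htI, word4 hw htI hwI ht⟩
  · rw [id4 hG, id2 hG]
    exact ⟨word4 ht hv htI hvI, word4 htI hw ht hwI⟩

theorem pr_words {L : ℕ} {x y : Equiv.Perm Seq} (hx : x ∈ Words (U0 a b d) L)
    (hy : y ∈ Words (U0 a b d) L) : pr x y ∈ Words (U0 a b d) (8 * L) := by
  have h1 := words_hom psi0 (fun x hx => (psi_mem hG x hx).1) L x hx
  have h2 := words_hom psi1 (fun x hx => (psi_mem hG x hx).2) L y hy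
  have h3 := words_mul h1 h2
  rw [psi0_apply, psi1_apply, pr_mul, mul_one, one_mul] at h3
  have h4 : 4 * L + 4 * L = 8 * L := by ring
  rw [h4] at h3
  exact h3

theorem sq_growth (L : ℕ) :
    (Words (U0 a b d) L).ncard * (Words (U0 a b d) L).ncard ≤ (Words (U0 a b d) (8 * L)).ncard := by
  rw [← Set.ncard_prod]
  refine Set.ncard_le_ncard_of_injOn (fun q : Equiv.Perm Seq × Equiv.Perm Seq => pr q.1 q.2)
    ?_ ?_ (words_finite _ _)
  · rintro ⟨x, y⟩ ⟨hx, hy⟩
    exact pr_words hG hx hy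
  · rintro ⟨x, y⟩ - ⟨x', y'⟩ - h
    obtain ⟨h1, h2⟩ := pr_inj h
    simp only at h1 h2
    rw [h1, h2]

theorem t_ne_one : tW a b ≠ 1 := by
  intro h
  rw [pr_t hG, ← pr_one] at h
  have h1 := (pr_inj h).1
  have h2 : c * (c * a) = c * 1 := by rw [h1]
  rw [(rels hG).2.2.1.2.2.1 a, mul_one] at h2
  have h3 : a (cons false (fun _ => false)) = c (cons false (fun _ => false)) := by rw [h2]
  rw [hG.1, hG.2.2.2.2.1] at h3
  have h4 := congrFun h3 0
  simp [cons_zero] at h4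

theorem growth (k : ℕ) : 2 ^ 2 ^ k ≤ (Words (U0 a b d) (8 ^ k)).ncard := by
  induction k with
  | zero =>
    have h1 : (1 : Equiv.Perm Seq) ∈ Words (U0 a b d) (8 ^ 0) :=
      ⟨[1], rfl, fun x hx => by simp at hx; rw [hx]; exact mem_U0.2 (Or.inl rfl), by simp⟩
    have h2 : tW a b ∈ Words (U0 a b d) (8 ^ 0) :=
      ⟨[tW a b], rfl, fun x hx => by
        rw [List.mem_singleton] at hx; rw [hx]; exact mem_U0.2 (Or.inr (Or.inl rfl)), by simp⟩
    have h3 : ({1, tW a b} : Set (Equiv.Perm Seq)) ⊆ Words (U0 a b d) (8 ^ 0) := by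
      rintro x (rfl | rfl)
      · exact h1
      · exact h2
    have h4 := Set.ncard_le_ncard h3 (words_finite _ _)
    rw [Set.ncard_pair (t_ne_one hG).symm] at h4
    simpa using h4
  | succ k ih =>
    have h := sq_growth hG (8 ^ k)
    rw [pow_succ 8 k, mul_comm (8 ^ k) 8]
    refine le_trans ?_ h
    rw [pow_succ 2 k, mul_comm (2 ^ k) 2, two_mul, pow_add]
    exact Nat.mul_le_mul ih ih

omit hG in
/-- The iterated embeddings. -/
def phi : ℕ → (Equiv.Perm Seq →* Equiv.Perm Seq)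
  | 0 => psi0
  | i + 1 => psi1.comp (phi i)

omit hG in
theorem phi_inj (i : ℕ) : Function.Injective (phi i) := by
  induction i with
  | zero =>
    intro x y h
    exact (pr_inj h).1
  | succ i ih =>
    intro x y h
    exact ih (pr_inj h).2

omit hG in
theorem phi_comm (i k : ℕ) (x y : Equiv.Perm Seq) :
    phi i x * phi (i + 1 + k) y = phi (i + 1 + k) y * phi i x := by
  induction i with
  | zero =>
    have h : phi (0 + 1 + k) y = pr 1 (phi k y) := by
      rw [zero_add, add_comm]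
      rfl
    rw [h]
    change pr x 1 * pr 1 (phi k y) = pr 1 (phi k y) * pr x 1
    rw [pr_mul, pr_mul, mul_one, mul_one, one_mul, one_mul]
  | succ i ih =>
    have h : ∀ z, phi (i + 1 + 1 + k) z = pr 1 (phi (i + 1 + k) z) := by
      intro z
      have : i + 1 + 1 + k = (i + 1 + k) + 1 := by ring
      rw [this]
      rfl
    rw [h]
    change pr 1 (phi i x) * pr 1 (phi (i + 1 + k) y) = pr 1 (phi (i + 1 + k) y) * pr 1 (phi i x)
    rw [pr_mul, pr_mul, ih]

omit hG in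
theorem phi_comm' {i j : ℕ} (h : i ≠ j) (x y : Equiv.Perm Seq) :
    phi i x * phi j y = phi j y * phi i x := by
  rcases lt_or_gt_of_ne h with h | h
  · obtain ⟨k, rfl⟩ := Nat.exists_eq_add_of_le (Nat.succ_le_of_lt h)
    exact phi_comm i k x y
  · obtain ⟨k, rfl⟩ := Nat.exists_eq_add_of_le (Nat.succ_le_of_lt h)
    exact (phi_comm j k y x).symm

omit hG in
theorem words_closure {U : Finset (Equiv.Perm Seq)} {L : ℕ} {x : Equiv.Perm Seq}
    (hx : x ∈ Words U L) : x ∈ Subgroup.closure (U : Set (Equiv.Perm Seq)) := by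
  obtain ⟨l, -, h2, rfl⟩ := hx
  exact list_prod_mem fun y hy => Subgroup.subset_closure (h2 y hy)

theorem psi_closure (x : Equiv.Perm Seq)
    (hx : x ∈ Subgroup.closure (U0 a b d : Set (Equiv.Perm Seq))) :
    psi0 x ∈ Subgroup.closure (U0 a b d : Set (Equiv.Perm Seq)) ∧
      psi1 x ∈ Subgroup.closure (U0 a b d : Set (Equiv.Perm Seq)) := by
  constructor
  · have : Subgroup.closure (U0 a b d : Set (Equiv.Perm Seq)) ≤
        (Subgroup.closure (U0 a b d : Set (Equiv.Perm Seq))).comap psi0 := by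
      rw [Subgroup.closure_le]
      intro y hy
      exact words_closure (psi_mem hG y hy).1
    exact this hx
  · have : Subgroup.closure (U0 a b d : Set (Equiv.Perm Seq)) ≤
        (Subgroup.closure (U0 a b d : Set (Equiv.Perm Seq))).comap psi1 := by
      rw [Subgroup.closure_le]
      intro y hy
      exact words_closure (psi_mem hG y hy).2
    exact this hx

theorem phi_closure (i : ℕ) (x : Equiv.Perm Seq)
    (hx : x ∈ Subgroup.closure (U0 a b d : Set (Equiv.Perm Seq))) :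
    phi i x ∈ Subgroup.closure (U0 a b d : Set (Equiv.Perm Seq)) := by
  induction i with
  | zero => exact (psi_closure hG x hx).1
  | succ i ih => exact (psi_closure hG _ ih).2

omit hG in
theorem closure_sub : Subgroup.closure (U0 a b d : Set (Equiv.Perm Seq)) ≤
    Subgroup.closure {a, b, c, d} := by
  rw [Subgroup.closure_le]
  have ha : a ∈ Subgroup.closure ({a, b, c, d} : Set (Equiv.Perm Seq)) :=
    Subgroup.subset_closure (by simp)
  have hb : b ∈ Subgroup.closure ({a, b, c, d} : Set (Equiv.Perm Seq)) :=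
    Subgroup.subset_closure (by simp)
  have hd : d ∈ Subgroup.closure ({a, b, c, d} : Set (Equiv.Perm Seq)) :=
    Subgroup.subset_closure (by simp)
  intro x hx
  rcases mem_U0.1 hx with h | h | h | h | h | h | h <;> rw [h]
  · exact one_mem _
  all_goals
    simp only [tW, tI, vW, vI, wW, wI, SetLike.mem_coe]
    repeat' apply mul_mem
    all_goals assumption

omit hG in
theorem exists_k (D K : ℕ) : ∃ k : ℕ, K * (8 ^ k) ^ D ≤ 2 ^ 2 ^ k := by
  refine ⟨K + 3 * D + 4, ?_⟩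
  set k := K + 3 * D + 4 with hk
  have h1 : K ≤ 2 ^ K := Nat.lt_two_pow_self.le
  have h2 : (8 ^ k) ^ D = 2 ^ (3 * k * D) := by
    rw [show (8 : ℕ) = 2 ^ 3 by norm_num, ← pow_mul, ← pow_mul, mul_assoc]
  have h3 : ∀ m : ℕ, 4 ≤ m → m * m ≤ 2 ^ m := by
    intro m hm
    induction m, hm using Nat.le_induction with
    | base => norm_num
    | succ m hm ih =>
      rw [pow_succ]
      nlinarith
  have h4 : K + 3 * k * D ≤ k * k := by
    rw [hk]
    nlinarith [Nat.zero_le K, Nat.zero_le D, Nat.zero_le (K * D)]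
  calc K * (8 ^ k) ^ D ≤ 2 ^ K * 2 ^ (3 * k * D) := by
        rw [h2]
        exact Nat.mul_le_mul_right _ h1
    _ = 2 ^ (K + 3 * k * D) := by rw [pow_add]
    _ ≤ 2 ^ 2 ^ k := Nat.pow_le_pow_right (by norm_num) (h4.trans (h3 k (by omega)))

end

theorem taskG : TaskG := by
  classical
  intro a b c d hG n
  refine ⟨fun i => (U0 a b d).image (phi i), ?_, ?_, ?_⟩
  · intro i g hg
    obtain ⟨x, hx, rfl⟩ := Finset.mem_image.1 hg
    exact closure_sub (phi_closure hG i x (Subgroup.subset_closure hx))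
  · intro i j hij g hg h hh
    obtain ⟨x, hx, rfl⟩ := Finset.mem_image.1 hg
    obtain ⟨y, hy, rfl⟩ := Finset.mem_image.1 hh
    exact phi_comm' (fun h => hij (Fin.ext h)) x y
  · intro D K
    obtain ⟨k, hk⟩ := exists_k D K
    refine ⟨8 ^ k, Nat.one_le_pow _ _ (by norm_num), fun i => hk.trans ((growth hG k).trans ?_)⟩
    refine Set.ncard_le_ncard_of_injOn (phi i) ?_ ((phi_inj i).injOn) (words_finite _ _)
    intro x hx
    have h := words_hom (V := (U0 a b d).image (phi i)) (m := 1) (phi i)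
      (fun y hy => ⟨[phi i y], rfl, fun z hz => by
        rw [List.mem_singleton] at hz
        rw [hz]
        exact Finset.mem_image_of_mem _ hy, by simp⟩) (8 ^ k) x hx
    rw [one_mul] at h
    exact h

end H812R5.G
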