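import Mathlib
import Pool.Agent.H812R5.Stmts

set_option autoImplicit false

namespace H812R5.GE

/-- Deleting the first letter. -/
def tl (w : Seq) : Seq := fun n => w (n + 1)

/-- Changing the first letter. -/
def fa (w : Seq) : Seq := fun n => Nat.casesOn n (!w 0) (fun n => w (n + 1))

/-- The letters of the images under the generators `b, c, d` (state `0, 1, 2`). -/
def F : ℕ → Fin 3 → Seq → Bool
  | 0, _, w => w 0
  | n + 1, s, w => if w 0 = true then F n (s + 1) (tl w) else if s = 2 then tl w n else fa (tl w) n

/-- The images under the generators `b, c, d` (state `0, 1, 2`). -/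
def FF (s : Fin 3) (w : Seq) : Seq := fun n => F n s w

lemma tl_cons (x : Bool) (w : Seq) : tl (cons x w) = w := rfl

lemma fa_fa (w : Seq) : fa (fa w) = w := by
  funext n
  cases n with
  | zero => simp [fa]
  | succ n => rfl

lemma FF_zero (s : Fin 3) (w : Seq) : FF s w 0 = w 0 := rfl

lemma tl_FF (s : Fin 3) (w : Seq) : tl (FF s w) =
    if w 0 = true then FF (s + 1) (tl w) else if s = 2 then tl w else fa (tl w) := by
  funext n
  show F (n + 1) s w = _
  rw [F]
  split_ifs <;> rfl

lemma FF_FF (n : ℕ) : ∀ (s : Fin 3) (w : Seq), F n s (FF s w) = w n := by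
  induction n with
  | zero => intro s w; rfl
  | succ n ih =>
    intro s w
    rw [F, FF_zero, tl_FF]
    by_cases h : w 0 = true
    · rw [if_pos h, if_pos h, ih]
      rfl
    · rw [if_neg h, if_neg h]
      by_cases h2 : s = 2
      · rw [if_pos h2, if_pos h2]; rfl
      · rw [if_neg h2, if_neg h2, fa_fa]; rfl

lemma FF_inv (s : Fin 3) : Function.Involutive (FF s) := fun w => funext fun n => FF_FF n s w

lemma FF_false (s : Fin 3) (w : Seq) : FF s (cons false w) = cons false (if s = 2 then w else fa w) := by
  funext n
  cases n with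
  | zero => rfl
  | succ n =>
    show F (n + 1) s (cons false w) = (if s = 2 then w else fa w) n
    rw [F, if_neg (by show ¬ (false = true); simp), tl_cons]
    split_ifs <;> rfl

lemma FF_true (s : Fin 3) (w : Seq) : FF s (cons true w) = cons true (FF (s + 1) w) := by
  funext n
  cases n with
  | zero => rfl
  | succ n =>
    show F (n + 1) s (cons true w) = F n (s + 1) w
    rw [F, if_pos (show cons true w 0 = true from rfl), tl_cons]

theorem taskGE : TaskGE := by
  refine ⟨(show Function.Involutive fa from fa_fa).toPerm, (FF_inv 0).toPerm, (FF_inv 1).toPerm,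
    (FF_inv 2).toPerm, ?_, ?_, ?_, ?_, ?_, ?_, ?_, ?_⟩
  · intro w
    funext n
    cases n <;> rfl
  · intro w
    funext n
    cases n <;> rfl
  · exact fun w => FF_false 0 w
  · exact fun w => FF_true 0 w
  · exact fun w => FF_false 1 w
  · exact fun w => FF_true 1 w
  · exact fun w => FF_false 2 w
  · exact fun w => FF_true 2 w

end H812R5.GE
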