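import Pool.Agent.H812R5.Stmts
import Pool.Agent.Helper475.Miranda

set_option autoImplicit false

/-! The `n`-dimensional Hex lemma, deduced from the theorem of Poincaré and Miranda. -/

namespace H812R5.Hex

open Relation

/-- the tent weight of the grid point `v` at `x` -/
noncomputable def wt {n : ℕ} (L : ℕ) (x : Fin n → ℝ) (v : Fin n → ℤ) : ℝ :=
  ∏ j, max 0 (1 - |(L : ℝ) * x j - (v j : ℝ)|)

lemma wt_nonneg {n : ℕ} (L : ℕ) (x : Fin n → ℝ) (v : Fin n → ℤ) : 0 ≤ wt L x v :=
  Finset.prod_nonneg fun _ _ => le_max_left _ _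

lemma wt_ne {n : ℕ} {L : ℕ} {x : Fin n → ℝ} {v : Fin n → ℤ} (h : wt L x v ≠ 0) (j : Fin n) :
    |(L : ℝ) * x j - (v j : ℝ)| < 1 := by
  by_contra hc
  push Not at hc
  apply h
  apply Finset.prod_eq_zero (Finset.mem_univ j)
  exact max_eq_left (by linarith)

lemma wt_cont {n : ℕ} (L : ℕ) (v : Fin n → ℤ) : Continuous fun x : Fin n → ℝ => wt L x v := by
  unfold wt
  fun_prop

/-- the points which are joined to the face `x_i = 0` by a path of their colour -/
def Good {n : ℕ} (L : ℕ) (c : (Fin n → ℤ) → Fin n) (v : Fin n → ℤ) : Prop :=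
  ∃ s : Fin n → ℤ, (∀ j, 0 ≤ s j ∧ s j ≤ L) ∧ s (c v) = 0 ∧ c s = c v ∧
    ReflTransGen (GStep L c (c v)) s v

theorem taskHex : TaskHex := by
  classical
  intro n L hn hL c
  by_contra hno
  set G : Finset (Fin n → ℤ) := Fintype.piFinset fun _ : Fin n => Finset.Icc (0 : ℤ) L with hG
  have hmem : ∀ v : Fin n → ℤ, v ∈ G ↔ ∀ j, 0 ≤ v j ∧ v j ≤ L := by
    intro v
    rw [hG, Fintype.mem_piFinset]
    simp only [Finset.mem_Icc]
  have hLR : (0 : ℝ) < L := by exact_mod_cast hL
  let σ : (Fin n → ℤ) → ℝ := fun v => if Good L c v then -1 else 1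
  let F : (Fin n → ℝ) → (Fin n → ℝ) := fun x i =>
    ∑ v ∈ G, wt L x v * (σ v * if c v = i then 1 else 0)
  have hFc : Continuous F := by
    apply continuous_pi
    intro i
    apply continuous_finsetSum
    intro v _
    exact (wt_cont L v).mul continuous_const
  have h0 : ∀ x : Fin n → ℝ, (∀ i, 0 ≤ x i ∧ x i ≤ 1) → ∀ i, x i = 0 → F x i ≤ 0 := by
    intro x _ i hxi
    apply Finset.sum_nonpos
    intro v hv
    by_cases hw : wt L x v = 0
    · rw [hw, zero_mul]
    by_cases hc : c v = i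
    · have h1 := wt_ne hw i
      rw [hxi, mul_zero, zero_sub, abs_neg] at h1
      have h2 : v i = 0 := by
        have h3 : |v i| < 1 := by exact_mod_cast h1
        exact Int.abs_lt_one_iff.1 h3
      have hgood : Good L c v := ⟨v, (hmem v).1 hv, by rw [hc]; exact h2, rfl, ReflTransGen.refl⟩
      simp only [σ, if_pos hgood, if_pos hc]
      have := wt_nonneg L x v
      linarith
    · simp only [if_neg hc, mul_zero]
      exact le_rfl
  have h1 : ∀ x : Fin n → ℝ, (∀ i, 0 ≤ x i ∧ x i ≤ 1) → ∀ i, x i = 1 → 0 ≤ F x i := by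
    intro x _ i hxi
    apply Finset.sum_nonneg
    intro v hv
    by_cases hw : wt L x v = 0
    · rw [hw, zero_mul]
    by_cases hc : c v = i
    · have h1 := wt_ne hw i
      rw [hxi, mul_one] at h1
      have h2 : v i = L := by
        have h3 : |(L : ℤ) - v i| < 1 := by exact_mod_cast h1
        have := Int.abs_lt_one_iff.1 h3
        omega
      have hbad : ¬ Good L c v := by
        rintro ⟨s, hs, hs0, hsc, hp⟩
        apply hno
        rw [hc] at hs0 hsc hp
        exact ⟨i, s, v, hs, (hmem v).1 hv, hs0, h2, hsc, hc, hp⟩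
      simp only [σ, if_neg hbad, if_pos hc]
      have := wt_nonneg L x v
      linarith
    · simp only [if_neg hc, mul_zero]
      exact le_rfl
  obtain ⟨x, hx, hFx⟩ := Pool.Agent.Helper475.Miranda.poincare_miranda n F hFc.continuousOn h0 h1
  -- the lower corner
  set v0 : Fin n → ℤ := fun j => ⌊(L : ℝ) * x j⌋ with hv0
  have hv0G : ∀ j, 0 ≤ v0 j ∧ v0 j ≤ L := by
    intro j
    constructor
    · exact Int.floor_nonneg.2 (mul_nonneg hLR.le (hx j).1)
    · have h2 : (v0 j : ℝ) ≤ L := by
        refine (Int.floor_le _).trans ?_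
        have := mul_le_mul_of_nonneg_left (hx j).2 hLR.le
        linarith
      exact_mod_cast h2
  have hnear : ∀ v : Fin n → ℤ, wt L x v ≠ 0 → ∀ j, |v j - v0 j| ≤ 1 := by
    intro v hw j
    have h2 := wt_ne hw j
    have h3 : (v0 j : ℝ) ≤ (L : ℝ) * x j := Int.floor_le _
    have h4 : (L : ℝ) * x j < v0 j + 1 := Int.lt_floor_add_one _
    rw [abs_lt] at h2
    have h5 : v j < v0 j + 2 := by
      have : (v j : ℝ) < ((v0 j + 2 : ℤ) : ℝ) := by push_cast; linarith
      exact_mod_cast this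
    have h6 : v0 j - 1 < v j := by
      have : ((v0 j - 1 : ℤ) : ℝ) < (v j : ℝ) := by push_cast; linarith
      exact_mod_cast this
    rw [abs_le]
    constructor <;> omega
  have hσ : ∀ v ∈ G, wt L x v ≠ 0 → c v = c v0 → σ v = σ v0 := by
    intro v hv hw hc
    have hiff : Good L c v ↔ Good L c v0 := by
      constructor
      · rintro ⟨s, hs, hs0, hsc, hp⟩
        rw [hc] at hs0 hsc hp
        exact ⟨s, hs, hs0, hsc, hp.tail ⟨hv0G, fun j => by
          rw [abs_sub_comm]; exact hnear v hw j, hc, rfl⟩⟩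
      · rintro ⟨s, hs, hs0, hsc, hp⟩
        refine ⟨s, hs, by rw [hc]; exact hs0, by rw [hc]; exact hsc, ?_⟩
        rw [hc]
        exact hp.tail ⟨(hmem v).1 hv, hnear v hw, rfl, hc⟩
    simp only [σ, hiff]
  have hsum : F x (c v0) = σ v0 * ∑ v ∈ G, wt L x v * (if c v = c v0 then 1 else 0) := by
    simp only [F]
    rw [Finset.mul_sum]
    refine Finset.sum_congr rfl fun v hv => ?_
    by_cases hw : wt L x v = 0
    · rw [hw]; ring
    by_cases hc : c v = c v0
    · rw [hσ v hv hw hc]; ring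
    · rw [if_neg hc]; ring
  have hpos : 0 < ∑ v ∈ G, wt L x v * (if c v = c v0 then (1 : ℝ) else 0) := by
    have h2 : 0 < wt L x v0 := by
      apply Finset.prod_pos
      intro j _
      apply lt_max_of_lt_right
      have h3 : (v0 j : ℝ) ≤ (L : ℝ) * x j := Int.floor_le _
      have h4 : (L : ℝ) * x j < v0 j + 1 := Int.lt_floor_add_one _
      rw [abs_of_nonneg (by linarith)]
      linarith
    have h3 : wt L x v0 * (if c v0 = c v0 then (1 : ℝ) else 0) ≤
        ∑ v ∈ G, wt L x v * (if c v = c v0 then (1 : ℝ) else 0) := by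
      apply Finset.single_le_sum (f := fun v => wt L x v * (if c v = c v0 then (1 : ℝ) else 0))
      · intro v _
        apply mul_nonneg (wt_nonneg L x v)
        split_ifs <;> norm_num
      · exact (hmem v0).2 hv0G
    rw [if_pos rfl, mul_one] at h3
    linarith
  have hσ0 : σ v0 ≠ 0 := by
    simp only [σ]
    split_ifs <;> norm_num
  have h2 : F x (c v0) = 0 := by rw [hFx]; rfl
  rw [hsum] at h2
  rcases mul_eq_zero.1 h2 with h | h
  · exact hσ0 h
  · exact hpos.ne' h

end H812R5.Hex
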