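import Pool.Agent.H812R5.Stmts

/-! # Superpolynomial commuting growth implies infinite weak hyperbolic dimension -/

namespace H812R5.Main

open H812R5 Function

variable {G : Type} [Group G] {S : Set G}

/-- `g` is a word of length at most `k`. -/
def WL (S : Set G) (k : ℕ) (g : G) : Prop :=
  ∃ l : List G, l.length ≤ k ∧ (∀ x ∈ l, x ∈ S ∨ x⁻¹ ∈ S) ∧ l.prod = g

lemma WL.mono {k m : ℕ} {g : G} (h : WL S k g) (hkm : k ≤ m) : WL S m g := by
  obtain ⟨l, hl, h1, h2⟩ := h
  exact ⟨l, hl.trans hkm, h1, h2⟩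

lemma WL.one (k : ℕ) : WL S k 1 := ⟨[], by simp, by simp, by simp⟩

lemma WL.mul {k m : ℕ} {g h : G} (hg : WL S k g) (hh : WL S m h) : WL S (k + m) (g * h) := by
  obtain ⟨l, hl, h1, h2⟩ := hg
  obtain ⟨l', hl', h1', h2'⟩ := hh
  refine ⟨l ++ l', by simp; omega, ?_, by simp [h2, h2']⟩
  intro x hx
  rcases List.mem_append.1 hx with h | h
  · exact h1 x h
  · exact h1' x h

lemma WL.inv {k : ℕ} {g : G} (hg : WL S k g) : WL S k g⁻¹ := by
  obtain ⟨l, hl, h1, h2⟩ := hg
  refine ⟨(l.map (·⁻¹)).reverse, by simpa using hl, ?_, ?_⟩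
  · intro x hx
    simp only [List.mem_reverse, List.mem_map] at hx
    obtain ⟨y, hy, rfl⟩ := hx
    rcases h1 y hy with h | h
    · right; simpa using h
    · left; exact h
  · rw [← h2, List.prod_inv_reverse]

lemma exists_list {g : G} (hg : g ∈ Subgroup.closure S) :
    ∃ l : List G, (∀ x ∈ l, x ∈ S ∨ x⁻¹ ∈ S) ∧ l.prod = g := by
  have h : g ∈ Submonoid.closure (S ∪ S⁻¹) := by
    rw [← Subgroup.closure_toSubmonoid]
    exact hg
  obtain ⟨l, h1, h2⟩ := Submonoid.exists_list_of_mem_closure h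
  exact ⟨l, fun x hx => h1 x hx, h2⟩

lemma exists_WL {g : G} (hg : g ∈ Subgroup.closure S) : ∃ k, WL S k g := by
  obtain ⟨l, h1, h2⟩ := exists_list hg
  exact ⟨l.length, l, le_rfl, h1, h2⟩

lemma wlen_le {k : ℕ} {g : G} (hg : WL S k g) : wlen S g ≤ k := by
  obtain ⟨l, hl, h1, h2⟩ := hg
  refine le_trans ?_ hl
  exact Nat.sInf_le (show l.length ∈ {k : ℕ | ∃ l : List G, l.length = k ∧
    (∀ x ∈ l, x ∈ S ∨ x⁻¹ ∈ S) ∧ l.prod = g} from ⟨l, rfl, h1, h2⟩)

lemma WL_of_wlen_le {k : ℕ} {g : G} (hg : g ∈ Subgroup.closure S) (h : wlen S g ≤ k) :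
    WL S k g := by
  obtain ⟨l0, h10, h20⟩ := exists_list hg
  have : wlen S g ∈ {k : ℕ | ∃ l : List G, l.length = k ∧ (∀ x ∈ l, x ∈ S ∨ x⁻¹ ∈ S) ∧
      l.prod = g} := Nat.sInf_mem ⟨l0.length, l0, rfl, h10, h20⟩
  obtain ⟨l, hl, h1, h2⟩ := this
  exact ⟨l, hl.le.trans h, h1, h2⟩

lemma finite_WL (hS : S.Finite) (k : ℕ) : {g : G | WL S k g}.Finite := by
  induction k with
  | zero =>
    refine (Set.finite_singleton (1 : G)).subset ?_
    rintro g ⟨l, hl, h1, h2⟩
    have : l = [] := by simpa using hl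
    subst this
    simpa using h2.symm
  | succ k ih =>
    have hT : (S ∪ S⁻¹ ∪ {1}).Finite := (hS.union hS.inv).union (Set.finite_singleton _)
    refine ((hT.mul ih)).subset ?_
    rintro g ⟨l, hl, h1, h2⟩
    cases l with
    | nil =>
      refine ⟨1, by simp, 1, WL.one k, ?_⟩
      simpa using h2
    | cons x l =>
      refine ⟨x, ?_, l.prod, ⟨l, by simpa using hl, fun y hy => h1 y (by simp [hy]), rfl⟩, ?_⟩
      · rcases h1 x (by simp) with h | h
        · left; left; exact h
        · left; right; exact h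
      · simpa using h2

lemma WL_list {lam : ℕ} (l : List G) (hl : ∀ x ∈ l, WL S lam x) : WL S (lam * l.length) l.prod := by
  induction l with
  | nil => exact WL.one _
  | cons x l ih =>
    have h1 := (hl x (by simp)).mul (ih (fun y hy => hl y (by simp [hy])))
    simp only [List.prod_cons]
    refine h1.mono ?_
    simp only [List.length_cons]
    ring_nf
    exact le_rfl

lemma WL_take_aux {lam : ℕ} (l : List G) (hl : ∀ x ∈ l, WL S lam x) (a b : ℕ) (hab : a ≤ b) :
    WL S (lam * (b - a)) ((l.take a).prod⁻¹ * (l.take b).prod) := by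
  have h1 : l.take b = l.take a ++ (l.take b).drop a := by
    conv_lhs => rw [← List.take_append_drop a (l.take b)]
    rw [List.take_take, min_eq_left hab]
  rw [h1, List.prod_append, inv_mul_cancel_left]
  refine (WL_list (lam := lam) _ ?_).mono ?_
  · intro x hx
    exact hl x (List.mem_of_mem_take (List.mem_of_mem_drop hx))
  · refine Nat.mul_le_mul_left _ ?_
    simp only [List.length_drop, List.length_take]
    omega

lemma WL_take {lam : ℕ} (l : List G) (hl : ∀ x ∈ l, WL S lam x) (p q : ℤ) :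
    WL S (lam * (q - p).natAbs) ((l.take p.toNat).prod⁻¹ * (l.take q.toNat).prod) := by
  rcases le_total p.toNat q.toNat with h | h
  · refine (WL_take_aux l hl _ _ h).mono (Nat.mul_le_mul_left _ ?_)
    omega
  · have := (WL_take_aux l hl _ _ h).inv
    rw [mul_inv_rev, inv_inv] at this
    refine this.mono (Nat.mul_le_mul_left _ ?_)
    omega

/-- Ordered product. -/
def pr : (m : ℕ) → (Fin m → G) → G
  | 0, _ => 1
  | m + 1, f => f 0 * pr m (Fin.tail f)

lemma pr_commute (m : ℕ) (f : Fin m → G) (g : G) (h : ∀ i, Commute g (f i)) :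
    Commute g (pr m f) := by
  induction m with
  | zero => exact Commute.one_right g
  | succ m ih => exact (h 0).mul_right (ih (Fin.tail f) (fun i => h i.succ))

lemma pr_mem (H : Subgroup G) (m : ℕ) (f : Fin m → G) (h : ∀ i, f i ∈ H) : pr m f ∈ H := by
  induction m with
  | zero => exact H.one_mem
  | succ m ih => exact H.mul_mem (h 0) (ih (Fin.tail f) (fun i => h i.succ))

lemma WL_pr (m : ℕ) (x y : Fin m → G) (k : Fin m → ℕ)
    (hxx : ∀ i j, i ≠ j → Commute (x i) (x j)) (hxy : ∀ i j, i ≠ j → Commute (y i) (x j))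
    (hk : ∀ i, WL S (k i) ((x i)⁻¹ * y i)) : WL S (∑ i, k i) ((pr m x)⁻¹ * pr m y) := by
  induction m with
  | zero => simpa [pr] using WL.one _
  | succ m ih =>
    have h1 := ih (Fin.tail x) (Fin.tail y) (Fin.tail k)
      (fun i j hij => hxx i.succ j.succ (by simpa using hij))
      (fun i j hij => hxy i.succ j.succ (by simpa using hij)) (fun i => hk i.succ)
    have h2 : (pr (m + 1) x)⁻¹ * pr (m + 1) y =
        ((x 0)⁻¹ * y 0) * ((pr m (Fin.tail x))⁻¹ * pr m (Fin.tail y)) := by
      have hc1 : Commute (x 0) (pr m (Fin.tail x)) :=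
        pr_commute m _ _ (fun i => hxx 0 i.succ (Fin.succ_ne_zero i).symm)
      have hc2 : Commute (y 0) (pr m (Fin.tail x)) :=
        pr_commute m _ _ (fun i => hxy 0 i.succ (Fin.succ_ne_zero i).symm)
      have hc3 : Commute ((x 0)⁻¹ * y 0) (pr m (Fin.tail x))⁻¹ :=
        ((hc1.inv_left).mul_left hc2).inv_right
      simp only [pr, mul_inv_rev]
      calc (pr m (Fin.tail x))⁻¹ * (x 0)⁻¹ * (y 0 * pr m (Fin.tail y))
          = ((pr m (Fin.tail x))⁻¹ * ((x 0)⁻¹ * y 0)) * pr m (Fin.tail y) := by group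
        _ = (((x 0)⁻¹ * y 0) * (pr m (Fin.tail x))⁻¹) * pr m (Fin.tail y) := by rw [hc3.eq]
        _ = _ := by group
    rw [h2, Fin.sum_univ_succ]
    exact (hk 0).mul h1

lemma pr_update (m : ℕ) (y : Fin m → G) (i : Fin m) :
    ∃ A B : G, ∀ g, pr m (update y i g) = A * g * B := by
  induction m with
  | zero => exact i.elim0
  | succ m ih =>
    refine Fin.cases ?_ (fun j => ?_) i
    · refine ⟨1, pr m (Fin.tail y), fun g => ?_⟩
      simp [pr, Fin.tail_update_zero]
    · obtain ⟨A, B, h⟩ := ih (Fin.tail y) j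
      refine ⟨y 0 * A, B, fun g => ?_⟩
      have h0 : update y j.succ g 0 = y 0 := update_of_ne (Fin.succ_ne_zero j).symm _ _
      simp only [pr, Fin.tail_update_succ, h, h0]
      group

lemma iter {X : Type} (d : X → X → ℝ) (N : ℕ) (R : ℝ) (Y : Set X) (hR : 0 < R)
    (hY : Doubling d N R Y) (β : ℕ)
    (hβ : ∀ x, ∀ T : Finset X, (∀ y ∈ T, d x y ≤ R) → T.card ≤ β) (k : ℕ) :
    ∀ (x : X) (T : Finset X), (∀ y ∈ T, y ∈ Y ∧ d x y ≤ 2 ^ k * R) → T.card ≤ N ^ k * β := by
  classical
  induction k with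
  | zero =>
    intro x T hT
    simpa using hβ x T (fun y hy => by simpa using (hT y hy).2)
  | succ k ih =>
    intro x T hT
    have h1 : R ≤ 2 ^ k * R := by
      have : (1 : ℝ) ≤ 2 ^ k := one_le_pow₀ (by norm_num)
      nlinarith
    obtain ⟨c, hc⟩ := hY x (2 ^ k * R) h1
    have h2 : T ⊆ Finset.univ.biUnion (fun i : Fin N => T.filter (fun y => d (c i) y ≤ 2 ^ k * R)) := by
      intro y hy
      obtain ⟨i, hi⟩ := hc y (hT y hy).1 (by
        have := (hT y hy).2
        rw [pow_succ] at this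
        linarith)
      simp only [Finset.mem_biUnion, Finset.mem_univ, true_and, Finset.mem_filter]
      exact ⟨i, hy, hi⟩
    calc T.card ≤ _ := Finset.card_le_card h2
      _ ≤ ∑ i : Fin N, (T.filter (fun y => d (c i) y ≤ 2 ^ k * R)).card := Finset.card_biUnion_le
      _ ≤ ∑ i : Fin N, N ^ k * β := Finset.sum_le_sum (fun i _ => ih (c i) _ (fun y hy => by
          rw [Finset.mem_filter] at hy
          exact ⟨(hT y hy.1).1, hy.2⟩))
      _ = N ^ (k + 1) * β := by simp; ring

lemma ball_bound (hS : S.Finite) (R : ℝ) : ∃ β : ℕ, ∀ (x : Subgroup.closure S)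
    (T : Finset (Subgroup.closure S)), (∀ y ∈ T, wd S x y ≤ R) → T.card ≤ β := by
  classical
  have hfin := finite_WL hS ⌊R⌋₊
  refine ⟨hfin.toFinset.card, fun x T hT => ?_⟩
  refine Finset.card_le_card_of_injOn (fun y => (x : G)⁻¹ * (y : G)) ?_ ?_
  · intro y hy
    simp only [Set.Finite.coe_toFinset, Set.mem_ofPred_eq]
    refine WL_of_wlen_le (Subgroup.mul_mem _ (Subgroup.inv_mem _ x.2) y.2) ?_
    exact Nat.le_floor (hT y hy)
  · intro y _ z _ h
    simp only [mul_right_inj] at h
    exact Subtype.ext h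

lemma exists_pow (M : ℕ) (hM : 1 ≤ M) : ∃ k, M ≤ 2 ^ k ∧ 2 ^ k ≤ 2 * M := by
  refine ⟨Nat.log 2 M + 1, (Nat.lt_pow_succ_log_self (by norm_num) M).le, ?_⟩
  rw [pow_succ]
  have := Nat.pow_log_le_self 2 (x := M) (by omega)
  omega

lemma finite_words (U : Finset G) (L : ℕ) : (Words U L).Finite := by
  induction L with
  | zero =>
    refine (Set.finite_singleton (1 : G)).subset ?_
    rintro g ⟨l, hl, h1, h2⟩
    have : l = [] := by simpa using hl
    subst this
    simpa using h2.symm
  | succ k ih =>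
    refine ((U.finite_toSet.mul ih)).subset ?_
    rintro g ⟨l, hl, h1, h2⟩
    cases l with
    | nil => simp at hl
    | cons x l =>
      refine ⟨x, h1 x (by simp), l.prod, ⟨l, by simpa using hl,
        fun y hy => h1 y (by simp [hy]), rfl⟩, ?_⟩
      simpa using h2

lemma commute_lists (l l' : List G) (h : ∀ a ∈ l, ∀ b ∈ l', a * b = b * a) :
    Commute l.prod l'.prod := by
  induction l with
  | nil => exact Commute.one_left _
  | cons x l ih =>
    rw [List.prod_cons]
    refine Commute.mul_left ?_ (ih (fun a ha b hb => h a (by simp [ha]) b hb))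
    clear ih
    induction l' with
    | nil => exact Commute.one_right _
    | cons y l' ih' =>
      rw [List.prod_cons]
      exact Commute.mul_right (h x (by simp) y (by simp))
        (ih' (fun a ha b hb => h a ha b (by simp [hb])))

/-- The grid point. -/
def xx {m : ℕ} {W : Fin m → Type} (li : ∀ i, W i → List G) (w : ∀ i, W i) (t : Fin m → ℤ)
    (i : Fin m) : G := ((li i (w i)).take (t i).toNat).prod

theorem core (hHex : TaskHex) (hPig : TaskPig) (m : ℕ) (hm : 0 < m)
    (U : Fin m → Finset G) (hU1 : ∀ i, ∀ g ∈ U i, g ∈ Subgroup.closure S)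
    (hU2 : ∀ i j, i ≠ j → ∀ g ∈ U i, ∀ h ∈ U j, g * h = h * g)
    (lam : ℕ) (hlam : ∀ i, ∀ g ∈ U i, WL S lam g)
    (N : ℕ) (R : ℝ) (hR : 0 < R) (P : Fin m → Set (Set (Subgroup.closure S)))
    (hP1 : ∀ i, ∀ Y ∈ P i, Doubling (wd S) N R Y)
    (hP2 : ∀ i, ∀ Y ∈ P i, ∀ Y' ∈ P i, Y ≠ Y' → ∀ y ∈ Y, ∀ y' ∈ Y',
      ((m * lam : ℕ) : ℝ) + 1 ≤ wd S y y')
    (hP3 : ∀ x, ∃ i, ∃ Y ∈ P i, x ∈ Y)
    (β : ℕ) (hβ : ∀ (x : Subgroup.closure S)
      (T : Finset (Subgroup.closure S)), (∀ y ∈ T, wd S x y ≤ R) → T.card ≤ β)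
    (L : ℕ) (hL : 1 ≤ L) (hne : ∀ i, (Words (U i) L).Nonempty)
    (k : ℕ) (hk : ((m * lam * L : ℕ) : ℝ) ≤ 2 ^ k * R) :
    ∃ i, (Words (U i) L).ncard ≤ m * (N ^ k * β * ((L + 1) ^ m * (L + 1) ^ m)) := by
  classical
  let W : Fin m → Type := fun i => Words (U i) L
  have : ∀ i, Fintype (W i) := fun i => (finite_words (U i) L).fintype
  have : ∀ i, Nonempty (W i) := fun i => (hne i).to_subtype
  have hcard : ∀ i, Fintype.card (W i) = (Words (U i) L).ncard := by
    intro i
    rw [← Nat.card_eq_fintype_card]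
    rfl
  choose li hli1 hli2 hli3 using fun i (w : W i) => w.2
  have hxmem : ∀ w t i, xx li w t i ∈ Subgroup.closure S := by
    intro w t i
    refine Subgroup.list_prod_mem _ (fun g hg => ?_)
    exact hU1 i g (hli2 i (w i) g (List.mem_of_mem_take hg))
  have hcomm : ∀ w w' t t' i j, i ≠ j → Commute (xx li w t i) (xx li w' t' j) := by
    intro w w' t t' i j hij
    refine commute_lists _ _ (fun a ha b hb => ?_)
    exact hU2 i j hij a (hli2 i (w i) a (List.mem_of_mem_take ha)) b
      (hli2 j (w' j) b (List.mem_of_mem_take hb))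
  let gpt : (∀ i, W i) → (Fin m → ℤ) → Subgroup.closure S := fun w t =>
    ⟨pr m (xx li w t), pr_mem _ m _ (hxmem w t)⟩
  have hdist : ∀ w p q, wd S (gpt w p) (gpt w q) ≤ ((∑ i, lam * (q i - p i).natAbs : ℕ) : ℝ) := by
    intro w p q
    have h := WL_pr (S := S) m (xx li w p) (xx li w q) (fun i => lam * (q i - p i).natAbs)
      (hcomm w w p p) (hcomm w w q p)
      (fun i => WL_take _ (fun x hx => hlam i x (hli2 i (w i) x hx)) (p i) (q i))
    show ((wlen S ((pr m (xx li w p))⁻¹ * pr m (xx li w q)) : ℕ) : ℝ) ≤ _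
    exact Nat.cast_le.2 (wlen_le h)
  choose ci Yi hYi hmemY using hP3
  choose I s s' hs hs' hs0 hsL hcs hcs' hpath using
    fun w => hHex m L hm hL (fun t => ci (gpt w t))
  have hstep : ∀ w i p q, GStep L (fun t => ci (gpt w t)) i p q →
      Yi (gpt w p) = Yi (gpt w q) := by
    intro w i p q hpq
    obtain ⟨-, h2, h3, h4⟩ := hpq
    by_contra hne
    have h5 : Yi (gpt w p) ∈ P i := h3 ▸ hYi (gpt w p)
    have h6 : Yi (gpt w q) ∈ P i := h4 ▸ hYi (gpt w q)
    have h7 := hP2 i _ h5 _ h6 hne _ (hmemY _) _ (hmemY _)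
    have h8 := hdist w p q
    have h9 : (∑ i, lam * (q i - p i).natAbs) ≤ m * lam := by
      calc (∑ i, lam * (q i - p i).natAbs) ≤ ∑ i : Fin m, lam := by
            refine Finset.sum_le_sum (fun j _ => ?_)
            have : (q j - p j).natAbs ≤ 1 := by
              have := abs_le.1 (h2 j)
              omega
            exact (Nat.mul_le_mul_left lam this).trans (by simp)
        _ = m * lam := by simp
    have h10 : ((∑ i, lam * (q i - p i).natAbs : ℕ) : ℝ) ≤ ((m * lam : ℕ) : ℝ) := by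
      exact_mod_cast h9
    linarith
  have hsame : ∀ w, Yi (gpt w (s w)) = Yi (gpt w (s' w)) := by
    intro w
    have : ∀ q, Relation.ReflTransGen (GStep L (fun t => ci (gpt w t)) (I w)) (s w) q →
        Yi (gpt w (s w)) = Yi (gpt w q) := by
      intro q hq
      induction hq with
      | refl => rfl
      | tail _ h ih => exact ih.trans (hstep w _ _ _ h)
    exact this _ (hpath w)
  obtain ⟨i, w0, hcard1⟩ := hPig m hm W I
  refine ⟨i, ?_⟩
  rw [← hcard i]
  refine hcard1.trans (Nat.mul_le_mul_left _ ?_)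
  rw [Set.ncard_eq_toFinset_card']
  set T : Finset (W i) := {x : W i | I (update w0 i x) = i}.toFinset with hT
  have hmemT : ∀ x, x ∈ T ↔ I (update w0 i x) = i := by
    intro x
    simp [hT]
  let box : Finset (Fin m → ℤ) := Fintype.piFinset (fun _ => Finset.Icc (0 : ℤ) L)
  have hbox : box.card = (L + 1) ^ m := by
    simp [box, Fintype.card_piFinset]
  have key := Finset.card_le_mul_card_image_of_maps_to (s := T) (t := box ×ˢ box)
    (f := fun x => (s (update w0 i x), s' (update w0 i x)))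
    (by
      intro x hx
      simp only [box, Finset.mem_product, Fintype.mem_piFinset, Finset.mem_Icc]
      exact ⟨hs _, hs' _⟩) (N ^ k * β)
    (by
      rintro ⟨σ, σ'⟩ -
      set A := T.filter (fun x => (s (update w0 i x), s' (update w0 i x)) = (σ, σ')) with hA
      have hmemA : ∀ x, x ∈ A ↔ I (update w0 i x) = i ∧ s (update w0 i x) = σ ∧
          s' (update w0 i x) = σ' := by
        intro x
        simp [hA, hmemT]
      rcases A.eq_empty_or_nonempty with h0 | ⟨x1, hx1⟩
      · rw [h0]; simp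
      have hx1' := (hmemA x1).1 hx1
      have hσ0 : σ i = 0 := by
        have := hs0 (update w0 i x1)
        rw [hx1'.1, hx1'.2.1] at this
        exact this
      have hσL : σ' i = L := by
        have := hsL (update w0 i x1)
        rw [hx1'.1, hx1'.2.2] at this
        exact this
      have hstart : ∀ x, gpt (update w0 i x) σ = gpt (update w0 i x1) σ := by
        intro x
        refine Subtype.ext ?_
        show pr m _ = pr m _
        congr 1
        funext j
        by_cases hj : j = i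
        · subst hj
          simp [xx, hσ0]
        · simp [xx, update_of_ne hj]
      obtain ⟨A0, B0, hAB⟩ := pr_update m (xx li w0 σ') i
      have hend : ∀ x : W i, ((gpt (update w0 i x) σ' : Subgroup.closure S) : G) =
          A0 * (x : G) * B0 := by
        intro x
        rw [← hAB]
        show pr m _ = pr m _
        congr 1
        funext j
        by_cases hj : j = i
        · subst hj
          rw [update_self]
          simp only [xx, update_self, hσL, Int.toNat_natCast]
          rw [List.take_of_length_le (by rw [hli1])]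
          exact hli3 _ _
        · simp [xx, update_of_ne hj]
      have hinj : Function.Injective (fun x : W i => gpt (update w0 i x) σ') := by
        intro x y hxy
        have h1 : ((gpt (update w0 i x) σ' : Subgroup.closure S) : G) =
          (gpt (update w0 i y) σ' : Subgroup.closure S) := congrArg _ hxy
        rw [hend, hend] at h1
        have h2 : (x : G) = y := by simpa using h1
        exact Subtype.ext h2
      rw [← Finset.card_image_of_injective A hinj]
      refine iter (wd S) N R (Yi (gpt (update w0 i x1) σ)) hR (hP1 _ _ (hYi _)) β hβ k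
        (gpt (update w0 i x1) σ) _ ?_
      intro y hy
      obtain ⟨x, hx, rfl⟩ := Finset.mem_image.1 hy
      have hx' := (hmemA x).1 hx
      constructor
      · have h1 := hsame (update w0 i x)
        rw [hx'.2.1, hx'.2.2, hstart x] at h1
        rw [h1]
        exact hmemY _
      · rw [← hstart x]
        refine (hdist _ _ _).trans (le_trans ?_ hk)
        have h3 := hs (update w0 i x)
        have h4 := hs' (update w0 i x)
        rw [hx'.2.1] at h3
        rw [hx'.2.2] at h4
        have h9 : (∑ i, lam * (σ' i - σ i).natAbs) ≤ m * lam * L := by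
          calc (∑ i, lam * (σ' i - σ i).natAbs) ≤ ∑ i : Fin m, lam * L := by
                refine Finset.sum_le_sum (fun j _ => ?_)
                have : (σ' j - σ j).natAbs ≤ L := by
                  have := h3 j
                  have := h4 j
                  omega
                exact Nat.mul_le_mul_left _ this
            _ = m * lam * L := by simp; ring
        exact_mod_cast h9)
  rw [Finset.card_product, hbox] at key
  exact key

theorem main (hHex : TaskHex) (hPig : TaskPig) : TaskMain := by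
  classical
  intro G _ S hS hSP n hdim
  obtain ⟨U, hU1, hU2, hU3⟩ := hSP (n + 1)
  obtain ⟨lam, hlam⟩ : ∃ lam : ℕ, ∀ i, ∀ g ∈ U i, WL S lam g := by
    choose! f hf using fun g (hg : g ∈ Subgroup.closure S) => exists_WL hg
    refine ⟨Finset.univ.sup (fun i => (U i).sup f), fun i g hg => ?_⟩
    refine (hf g (hU1 i g hg)).mono ?_
    exact (Finset.le_sup (f := f) hg).trans
      (Finset.le_sup (f := fun i => (U i).sup f) (Finset.mem_univ i))
  obtain ⟨N, R, hN, hR, P, hP1, hP2, hP3⟩ := hdim ((((n + 1) * lam : ℕ) : ℝ) + 1) (by positivity)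
  obtain ⟨β, hβ⟩ := ball_bound hS R
  obtain ⟨C, hC1, hC⟩ : ∃ C : ℕ, 1 ≤ C ∧ (((n + 1) * lam : ℕ) : ℝ) ≤ C * R := by
    obtain ⟨C, hC⟩ := exists_nat_ge ((((n + 1) * lam : ℕ) : ℝ) / R)
    refine ⟨C + 1, by omega, ?_⟩
    rw [div_le_iff₀ hR] at hC
    push_cast at hC ⊢
    nlinarith
  obtain ⟨L, hL, hW⟩ := hU3 (N + 2 * (n + 1))
    ((n + 1) * (β * (2 * C) ^ N * 2 ^ (2 * (n + 1))) + 1)
  obtain ⟨k, hk1, hk2⟩ := exists_pow (C * L) (Nat.mul_pos hC1 hL)
  have hk : (((n + 1) * lam * L : ℕ) : ℝ) ≤ 2 ^ k * R := by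
    have h1 : ((C * L : ℕ) : ℝ) ≤ ((2 ^ k : ℕ) : ℝ) := by exact_mod_cast hk1
    have hL' : (0 : ℝ) ≤ L := Nat.cast_nonneg _
    calc (((n + 1) * lam * L : ℕ) : ℝ) = (((n + 1) * lam : ℕ) : ℝ) * L := by push_cast; ring
      _ ≤ (C * R) * L := mul_le_mul_of_nonneg_right hC hL'
      _ = ((C * L : ℕ) : ℝ) * R := by push_cast; ring
      _ ≤ ((2 ^ k : ℕ) : ℝ) * R := mul_le_mul_of_nonneg_right h1 hR.le
      _ = 2 ^ k * R := by push_cast; ring
  obtain ⟨i, hi⟩ := core hHex hPig (n + 1) (Nat.succ_pos n) U hU1 hU2 lam hlam N R hR P hP1 hP2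
    hP3 β hβ L hL (fun i => Set.nonempty_of_ncard_ne_zero (by
      have := hW i
      have h2 : 0 < L ^ (N + 2 * (n + 1)) := Nat.pow_pos hL
      intro h0
      rw [h0] at this
      exact absurd (lt_of_lt_of_le (Nat.mul_pos (Nat.succ_pos _) h2) this) (lt_irrefl 0))) k hk
  have h1 := (hW i).trans hi
  have h2 : N ^ k ≤ (2 * C) ^ N * L ^ N := by
    calc N ^ k ≤ (2 ^ N) ^ k := Nat.pow_le_pow_left Nat.lt_two_pow_self.le k
      _ = (2 ^ k) ^ N := by rw [← pow_mul, ← pow_mul, mul_comm]
      _ ≤ (2 * (C * L)) ^ N := Nat.pow_le_pow_left hk2 N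
      _ = _ := by rw [← mul_pow]; ring_nf
  have h3 : (L + 1) ^ (n + 1) * (L + 1) ^ (n + 1) ≤ 2 ^ (2 * (n + 1)) * L ^ (2 * (n + 1)) := by
    rw [← pow_add, ← mul_pow]
    have : n + 1 + (n + 1) = 2 * (n + 1) := by ring
    rw [this]
    exact Nat.pow_le_pow_left (by omega) _
  have h4 : (n + 1) * (N ^ k * β * ((L + 1) ^ (n + 1) * (L + 1) ^ (n + 1))) ≤
      (n + 1) * (β * (2 * C) ^ N * 2 ^ (2 * (n + 1))) * L ^ (N + 2 * (n + 1)) := by
    calc (n + 1) * (N ^ k * β * ((L + 1) ^ (n + 1) * (L + 1) ^ (n + 1)))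
        ≤ (n + 1) * (((2 * C) ^ N * L ^ N) * β * (2 ^ (2 * (n + 1)) * L ^ (2 * (n + 1)))) := by
          gcongr
      _ = _ := by rw [pow_add L]; ring
  have h5 : 0 < L ^ (N + 2 * (n + 1)) := Nat.pow_pos hL
  have h6 := h1.trans h4
  rw [add_mul] at h6
  omega

end H812R5.Main
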