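import Mathlib
import Pool.Agent.H812R5.Stmts

set_option autoImplicit false

/-! Task Pig of project H812-WH (written by helper782). -/

namespace H812R5.Pig

open H812R5

theorem taskPig : TaskPig := by
  intro m hm W _ _ col
  classical
  by_contra hcon
  push Not at hcon
  have hNf : ∀ (i : Fin m) (g : ∀ j, W j), {x : W i | col (Function.update g i x) = i}.ncard =
      (Finset.univ.filter fun x : W i => col (Function.update g i x) = i).card := by
    intro i g
    rw [← Set.ncard_coe_finset]
    congr 1
    ext x
    simp
  have key : ∀ i : Fin m, ∑ g : (∀ j, W j),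
      (Finset.univ.filter fun x : W i => col (Function.update g i x) = i).card =
      Fintype.card (W i) * (Finset.univ.filter fun g : (∀ j, W j) => col g = i).card := by
    intro i
    have hinv : Function.Involutive
        (fun p : (∀ j, W j) × W i => (Function.update p.1 i p.2, p.1 i)) := by
      rintro ⟨g, x⟩
      simp
    calc ∑ g : (∀ j, W j), (Finset.univ.filter fun x : W i => col (Function.update g i x) = i).card
        = ∑ g : (∀ j, W j), ∑ x : W i, (if col (Function.update g i x) = i then 1 else 0) := by
          refine Finset.sum_congr rfl fun g _ => ?_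
          rw [Finset.card_filter]
      _ = ∑ p : (∀ j, W j) × W i, (if col (Function.update p.1 i p.2) = i then 1 else 0) := by
          rw [Fintype.sum_prod_type]
      _ = ∑ p : (∀ j, W j) × W i, (if col p.1 = i then 1 else 0) := by
          refine Fintype.sum_bijective _ hinv.bijective _ _ fun p => ?_
          rfl
      _ = ∑ g : (∀ j, W j), ∑ _x : W i, (if col g = i then 1 else 0) := by
          rw [Fintype.sum_prod_type]
      _ = Fintype.card (W i) * (Finset.univ.filter fun g : (∀ j, W j) => col g = i).card := by
          rw [Finset.card_filter, Finset.mul_sum]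
          refine Finset.sum_congr rfl fun g _ => ?_
          rw [Finset.sum_const, smul_eq_mul, Finset.card_univ]
  have hlt : ∀ i : Fin m, m * (Finset.univ.filter fun g : (∀ j, W j) => col g = i).card <
      Fintype.card (∀ j, W j) := by
    intro i
    have h1 : ∑ g : (∀ j, W j), m * (Finset.univ.filter fun x : W i =>
        col (Function.update g i x) = i).card < ∑ _g : (∀ j, W j), Fintype.card (W i) := by
      refine Finset.sum_lt_sum_of_nonempty Finset.univ_nonempty fun g _ => ?_
      rw [← hNf]
      exact hcon i g
    rw [← Finset.mul_sum, key, Finset.sum_const, smul_eq_mul, Finset.card_univ] at h1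
    have h2 : 0 < Fintype.card (W i) := Fintype.card_pos
    have h3 : Fintype.card (W i) * (m * (Finset.univ.filter fun g : (∀ j, W j) => col g = i).card) <
        Fintype.card (W i) * Fintype.card (∀ j, W j) := by
      calc _ = m * (Fintype.card (W i) *
            (Finset.univ.filter fun g : (∀ j, W j) => col g = i).card) := by ring
        _ < _ := h1
        _ = _ := mul_comm _ _
    exact lt_of_mul_lt_mul_left h3 (Nat.zero_le _)
  have hsum : ∑ i : Fin m, (Finset.univ.filter fun g : (∀ j, W j) => col g = i).card =
      Fintype.card (∀ j, W j) := by
    rw [← Finset.card_univ]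
    exact (Finset.card_eq_sum_card_fiberwise (fun g _ => Finset.mem_coe.2 (Finset.mem_univ (col g)))).symm
  have hne : (Finset.univ : Finset (Fin m)).Nonempty := ⟨⟨0, hm⟩, Finset.mem_univ _⟩
  have hfin : ∑ i : Fin m, m * (Finset.univ.filter fun g : (∀ j, W j) => col g = i).card <
      ∑ _i : Fin m, Fintype.card (∀ j, W j) := Finset.sum_lt_sum_of_nonempty hne fun i _ => hlt i
  rw [← Finset.mul_sum, hsum, Finset.sum_const, smul_eq_mul, Finset.card_univ, Fintype.card_fin] at hfin
  exact lt_irrefl _ hfin

end H812R5.Pig
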